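import Pool.Agent.Helper786_Rig.Pt

/-!
# Sections are determined at one place: function fields
-/

set_option autoImplicit false
set_option linter.all false

open Polynomial FF Pool.Agent.Y157.PS Pool.Agent.Y158.GR IsDedekindDomain NumberField

namespace Pool.Agent.Helper786_Rig

theorem not_unit {K : Type} [Field K] [NumberField K] {p : ℕ} (hp : p.Prime) :
    ¬ IsUnit ((p : ℕ) : 𝓞 K) := by
  intro h
  have h1 : Ideal.absNorm (Ideal.span {((p : ℕ) : 𝓞 K)}) = p ^ Module.finrank ℤ (𝓞 K) :=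
    Ideal.absNorm_span_natCast (S := 𝓞 K) p
  rw [Ideal.span_singleton_eq_top.2 h, Ideal.absNorm_top] at h1
  rcases Nat.pow_eq_one.1 h1.symm with h5 | h5
  · exact hp.one_lt.ne' h5
  · exact Module.finrank_pos.ne' h5

theorem max_aux {K : Type} [Field K] [NumberField K] {p : ℕ} (hp : p.Prime) {I : Ideal (𝓞 K)} (hI : I.IsMaximal) (hI0 : I ≠ ⊥)
   (hpI : ((p : ℕ) : 𝓞 K) ∈ I) (hlt : Ideal.absNorm I < p) : False := by
  have h2 : 0 < Ideal.absNorm I := Nat.pos_of_ne_zero (by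
    rw [Ne, Ideal.absNorm_eq_zero_iff]
    exact hI0)
  have h3 : (Ideal.absNorm I : 𝓞 K) ∈ I := Ideal.absNorm_mem I
  have h4 : Nat.Coprime p (Ideal.absNorm I) := by
    rw [Nat.Prime.coprime_iff_not_dvd hp]
    intro h5
    exact absurd (Nat.le_of_dvd h2 h5) (not_le.2 hlt)
  apply hI.ne_top
  rw [Ideal.eq_top_iff_one]
  obtain ⟨a, b, h5⟩ := (Nat.isCoprime_iff_coprime.2 h4)
  have h6 : (1 : 𝓞 K) = (a : 𝓞 K) * (p : 𝓞 K) + (b : 𝓞 K) * (Ideal.absNorm I : 𝓞 K) := by
    have := congrArg (Int.cast : ℤ → 𝓞 K) h5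
    push_cast at this
    exact this.symm
  rw [h6]
  exact add_mem (I.mul_mem_left _ hpI) (I.mul_mem_left _ h3)
  


theorem exists_max {K : Type} [Field K] [NumberField K] (n : ℕ) : ∃ I : Ideal (𝓞 K), I.IsMaximal ∧ I ≠ ⊥ ∧ n < Ideal.absNorm I := by
  obtain ⟨p, hp1, hp2⟩ := Nat.exists_infinite_primes (n + 1)
  have hpu := not_unit (K := K) hp2
  obtain ⟨I, hI, hpI⟩ := exists_max_ideal_of_mem_nonunits hpu
  have hp0 : ((p : ℕ) : 𝓞 K) ≠ 0 := Nat.cast_ne_zero.2 hp2.ne_zero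
  have hI0 : I ≠ ⊥ := by
    intro h
    rw [h] at hpI
    exact hp0 ((Ideal.mem_bot).1 hpI)
  refine ⟨I, hI, hI0, ?_⟩
  by_contra hno
  exact max_aux hp2 hI hI0 hpI (lt_of_le_of_lt (not_lt.1 hno) hp1)

theorem exists_notMem {K : Type} [Field K] [NumberField K] {S : Set (HeightOneSpectrum (𝓞 K))}
    (hS : S.Finite) : ∃ v, v ∉ S := by
  have hn : ∃ n : ℕ, ∀ v ∈ S, Ideal.absNorm v.asIdeal ≤ n := by
    obtain ⟨n, hn⟩ := (hS.image fun v : HeightOneSpectrum (𝓞 K) => Ideal.absNorm v.asIdeal).bddAbove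
    exact ⟨n, fun v hv => hn ⟨v, hv, rfl⟩⟩
  obtain ⟨n, hn⟩ := hn
  obtain ⟨I, h1, h2, h3⟩ := exists_max (K := K) n
  exact ⟨⟨I, h1.isPrime, h2⟩, fun h => absurd (hn _ h) (not_le.2 h3)⟩

/-- `g` has good reduction at `v`, and the valuation of `d` is divisible by `ℓ` -/
def GoodAt {K : Type} [Field K] [NumberField K] (ℓ : ℕ) (g : (𝓞 K)[X]) (d : K)
    (v : HeightOneSpectrum (𝓞 K)) : Prop :=
  (ℓ : 𝓞 K) ∉ v.asIdeal ∧ g.leadingCoeff ∉ v.asIdeal ∧
    (g.map (Ideal.Quotient.mk v.asIdeal)).Separable ∧ ∃ t : K, v.valuation K d = v.valuation K t ^ ℓ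

section main

variable {K F Ω L C : Type} [Field K] [NumberField K]
    [Field F] [Field Ω] [Algebra K F] [Algebra F Ω] [Algebra K Ω] [IsScalarTower K F Ω]
    [IsAlgClosed Ω] [Algebra.IsAlgebraic F Ω]
    [Field L] [Field C] [Algebra K L] [Algebra L C] [Algebra K C]
    [IsScalarTower K L C] [CharZero L] [IsAlgClosure L C]

/-- a continuous section of the geometrically pro-`ℓ` group -/
structure SecG (ℓ : ℕ) (K F Ω : Type) [Field K] [Field F] [Field Ω] [Algebra K F] [Algebra F Ω]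
    [Algebra K Ω] (S : (algebraicClosure K Ω ≃ₐ[K] algebraicClosure K Ω) →*
      (geomPro ℓ K F Ω ≃ₐ[F] geomPro ℓ K F Ω)) : Prop where
  cont : Continuous S
  compat : ∀ σ (c : algebraicClosure K Ω) (z : geomPro ℓ K F Ω), (z : Ω) = (c : Ω) →
      (S σ z : Ω) = (σ c : Ω)

/-- **sections are determined at one place** -/
theorem geoBoth {ℓ : ℕ} [hℓ : Fact ℓ.Prime] {ζ : K} (hζ : IsPrimitiveRoot ζ ℓ)
    (g : (𝓞 K)[X]) (d : K) (hd : d ≠ 0) (h3 : 3 ≤ g.natDegree) {m : ℕ} (hm : g.natDegree = ℓ * m)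
    (hs : (g.map (algebraMap (𝓞 K) K)).Separable)
    (hgal : IsPGroup ℓ (g.map (algebraMap (𝓞 K) K)).Gal)
    {T : Set (HeightOneSpectrum (𝓞 K))} (hT : T.Finite) (hgood : ∀ v, v ∉ T → GoodAt ℓ g d v)
    (hL : LocPow ℓ T L) (ι : algebraicClosure K Ω →ₐ[K] C)
    (x y : F) (hx : Transcendental K x)
    (hxy : algebraMap K F d * y ^ ℓ = aeval x (g.map (algebraMap (𝓞 K) K)))
    (hF : IntermediateField.adjoin K {x, y} = (⊤ : IntermediateField K F)) :
    (∀ S S' : (algebraicClosure K Ω ≃ₐ[K] algebraicClosure K Ω) →*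
      (geomPro ℓ K F Ω ≃ₐ[F] geomPro ℓ K F Ω), SecG ℓ K F Ω S → SecG ℓ K F Ω S' →
      (∀ σ, DecL L ι σ → S σ = S' σ) → S = S') ∧
    ∀ S : (algebraicClosure K Ω ≃ₐ[K] algebraicClosure K Ω) →*
      (geomPro ℓ K F Ω ≃ₐ[F] geomPro ℓ K F Ω), SecG ℓ K F Ω S →
      ∀ W : ValuationSubring (geomPro ℓ K F Ω),
        (∀ c : K, algebraMap F (geomPro ℓ K F Ω) (algebraMap K F c) ∈ W) →
        ((∃ a b : K, algebraMap F (geomPro ℓ K F Ω) (x - algebraMap K F a) ∈ W.nonunits ∧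
            algebraMap F (geomPro ℓ K F Ω) (y - algebraMap K F b) ∈ W.nonunits) ∨
          (algebraMap F (geomPro ℓ K F Ω) x⁻¹ ∈ W.nonunits ∧ ∃ b : K,
            algebraMap F (geomPro ℓ K F Ω) (y / x ^ m - algebraMap K F b) ∈ W.nonunits)) →
        (∀ σ, DecL L ι σ → ∀ z, S σ z ∈ W ↔ z ∈ W) → ∀ σ z, S σ z ∈ W ↔ z ∈ W := by
  classical
  have hac : IsAlgClosure K (algebraicClosure K Ω) := inferInstance
  have hkb : IsAlgClosed (algebraicClosure K Ω) := hac.1
  have hch : CharZero (algebraicClosure K Ω) :=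
    charZero_of_injective_algebraMap (algebraMap K (algebraicClosure K Ω)).injective
  have hinj : Function.Injective (algebraMap (𝓞 K) K) := IsFractionRing.injective (𝓞 K) K
  obtain ⟨f, hf⟩ : ∃ f : K[X], f = g.map (algebraMap (𝓞 K) K) := ⟨_, rfl⟩
  have hdeg : f.natDegree = g.natDegree := by rw [hf, natDegree_map_eq_of_injective hinj]
  have hlcf : f.leadingCoeff = algebraMap (𝓞 K) K g.leadingCoeff := by
    rw [hf, leadingCoeff_map_of_injective hinj]
  have hf0 : f ≠ 0 := by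
    rintro rfl
    rw [natDegree_zero] at hdeg
    omega
  have hlc0 : f.leadingCoeff ≠ 0 := leadingCoeff_ne_zero.2 hf0
  rw [← hf] at hs hgal hxy
  have ha0 : d / f.leadingCoeff ≠ 0 := div_ne_zero hd hlc0
  obtain ⟨δ, hδ⟩ : ∃ δ : algebraicClosure K Ω, δ ^ ℓ = algebraMap K _ (d / f.leadingCoeff) :=
    IsAlgClosed.exists_pow_nat_eq _ hℓ.out.pos
  have hδ0 : δ ≠ 0 := by
    rintro rfl
    rw [zero_pow hℓ.out.ne_zero, eq_comm, _root_.map_eq_zero] at hδ
    exact ha0 hδ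
  obtain ⟨B, R, M, i1, i2, i3, i4, i5, i6, x', Y, eqv, hBf, hcard, hC, hconst, hex, hey⟩ :=
    geoSetup f hs (by rw [hdeg, hm]; exact dvd_mul_right _ _) (by rw [hdeg]; exact h3) d hδ0 hδ x y
      hx hxy hF
  obtain ⟨E, hE1, hE2, hE3, hE4⟩ := exists_spl (κ := algebraicClosure K Ω) f hgal
  have hgoodV : ∀ v, v ∉ T → ∀ V : ValuationSubring (algebraicClosure K Ω), Above v V →
      Good V B := by
    intro v hv V hV
    obtain ⟨-, h1, h2, -⟩ := hgood v hv
    refine good_of g h1 h2 hV fun θ hθ => ?_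
    rw [← hf]
    exact (hBf θ).1 hθ
  have hδI : ∀ v, v ∉ T → ∀ V : ValuationSubring (algebraicClosure K Ω), Above v V →
      ∀ σ : algebraicClosure K Ω ≃ₐ[K] algebraicClosure K Ω, Ine V σ → σ δ = δ := by
    intro v hv V hV σ hσ
    obtain ⟨h1, h2, -, t, ht⟩ := hgood v hv
    refine rad_fix hℓ.out.pos h1 hV ha0 hδ (t := t) ?_ hσ
    rw [map_div₀, hlcf, v.valuation_of_algebraMap, v.intValuation_eq_one_iff.2 h2, div_one]
    exact ht
  have hrot : ∃ V, HasRot (algebraicClosure K Ω) R M x' B Y V := by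
    obtain ⟨v, hv⟩ := exists_notMem hT
    obtain ⟨V, hV⟩ := exists_above (K := K) (algebraicClosure K Ω) v
    exact ⟨V, (hV.wgt (hgood v hv).1 hC (hgoodV v hv V hV)).2.1⟩
  have hsec : ∀ S : (algebraicClosure K Ω ≃ₐ[K] algebraicClosure K Ω) →*
      (geomPro ℓ K F Ω ≃ₐ[F] geomPro ℓ K F Ω), SecG ℓ K F Ω S →
      Sec K (algebraicClosure K Ω) R M x' Y δ (conjSec eqv S) := fun S hS =>
    sec_of hδ0 hconst hex hey S hS.cont hS.compat
  refine ⟨fun S S' hS hS' h => ?_, fun S hS W hWc hW hloc => ?_⟩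
  · have h1 : conjSec eqv S = conjSec eqv S' :=
      numRig hζ (fun v hv => (hgood v hv).1) hL ι hC E hE3
        (fun e he => hE4 e hf0 ((hBf e).1 he)) hgoodV hδ0 hδI (hsec S hS) (hsec S' hS')
        fun σ hσ => by
          ext z
          apply eqv.injective
          rw [conjSec_apply, conjSec_apply, h σ hσ]
    ext σ z
    have h2 : eqv (conjSec eqv S σ (eqv.symm z)) = eqv (conjSec eqv S' σ (eqv.symm z)) := by
      rw [h1]
    rw [conjSec_apply, conjSec_apply, eqv.apply_symm_apply] at h2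
    rw [h2]
  · have hs' : ∀ σ z, eqv (conjSec eqv S σ z) = S σ (eqv z) := fun σ z => conjSec_apply eqv S σ z
    have hmem' : ∀ z : M, z ∈ W.comap (eqv : M →+* geomPro ℓ K F Ω) ↔ eqv z ∈ W :=
      fun z => Iff.rfl
    have hnon' : ∀ z : M, z ∈ (W.comap (eqv : M →+* geomPro ℓ K F Ω)).nonunits ↔
        eqv z ∈ W.nonunits := fun z => Pool.Agent.Y157.PS.comap_non eqv W z
    have hcW : ∀ c : algebraicClosure K Ω, eqv (algebraMap (algebraicClosure K Ω) M c) ∈ W :=
      fun c => const_mem_N _ W hWc c _ (hconst c)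
    have hexN : eqv (algebraMap R M x') = algebraMap F (geomPro ℓ K F Ω) x := Subtype.ext hex
    have hcK : ∀ c : K, eqv (algebraMap (algebraicClosure K Ω) M
        (algebraMap K (algebraicClosure K Ω) c)) =
        algebraMap F (geomPro ℓ K F Ω) (algebraMap K F c) := fun c => by
      apply Subtype.ext
      rw [hconst]
      exact IsScalarTower.algebraMap_apply K F Ω c
    have heyN : eqv (algebraMap (algebraicClosure K Ω) M δ⁻¹ * Y) =
        algebraMap F (geomPro ℓ K F Ω) y := by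
      apply Subtype.ext
      rw [map_mul]
      change ((eqv (algebraMap (algebraicClosure K Ω) M δ⁻¹) : geomPro ℓ K F Ω) : Ω) *
        ((eqv Y : geomPro ℓ K F Ω) : Ω) = _
      rw [hconst, hey, ← mul_assoc]
      have h5 : ((δ⁻¹ : algebraicClosure K Ω) : Ω) * (δ : Ω) = 1 := by
        rw [← IntermediateField.coe_mul, inv_mul_cancel₀ hδ0]
        rfl
      rw [h5, one_mul]
      rfl
    have hx0 := x_ne0 hC
    have hsx : ∀ a : K, algebraMap R M x' - algebraMap (algebraicClosure K Ω) M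
        (algebraMap K (algebraicClosure K Ω) a) ∈
          (W.comap (eqv : M →+* geomPro ℓ K F Ω)).nonunits ↔
        algebraMap F (geomPro ℓ K F Ω) (x - algebraMap K F a) ∈ W.nonunits := by
      intro a
      rw [hnon', map_sub, hexN, hcK, ← map_sub]
    have hxinv : (algebraMap R M x')⁻¹ ∈ (W.comap (eqv : M →+* geomPro ℓ K F Ω)).nonunits ↔
        algebraMap F (geomPro ℓ K F Ω) x⁻¹ ∈ W.nonunits := by
      rw [hnon', map_inv₀, hexN, ← map_inv₀]
    have hw : ∃ w : M, w ≠ 0 ∧ w ∈ (W.comap (eqv : M →+* geomPro ℓ K F Ω)).nonunits := by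
      rcases hW with ⟨a, b, h1, h2⟩ | ⟨h1, b, h2⟩
      · exact ⟨_, sub_ne0 hC _, (hsx a).2 h1⟩
      · exact ⟨_, inv_ne_zero hx0, hxinv.2 h1⟩
    have htop : W.comap (eqv : M →+* geomPro ℓ K F Ω) ≠ ⊤ := by
      intro h0
      obtain ⟨w, hw0, hw⟩ := hw
      rw [h0, nonunits_iff] at hw
      rcases hw.2 with h2 | h2
      · exact hw0 h2
      · exact h2 trivial
    obtain ⟨Q, hQ, -⟩ := hC.loc _ (fun c => (hmem' _).2 (hcW c)) htop
    have hQW : ∀ σ, (∀ z, S σ z ∈ W ↔ z ∈ W) ↔ Fixes Q (conjSec eqv S σ) := by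
      intro σ
      constructor
      · intro h
        refine fixes_of_O Q (conjSec eqv S σ) (σ : _ ≃+* _) (fun c => (hsec S hS).const σ c)
          fun z => ?_
        rw [hQ, hmem', hmem', hs']
        exact h _
      · intro h z
        have h1 := O_of_fixes Q (conjSec eqv S σ) h (eqv.symm z)
        rw [hQ, hmem', hmem', hs', eqv.apply_symm_apply] at h1
        exact h1
    have hgam := gam_pt hC hrot (m := m) (by rw [hcard, hdeg, hm]) hδ0 (hsec S hS) Q (by
      rcases hW with ⟨a, b, h1, h2⟩ | ⟨h1, b, h2⟩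
      · refine Or.inl ⟨a, b, ?_, ?_⟩
        · rw [← O_non_iff Q (sub_ne0 hC _), hQ, hsx]
          exact h1
        · rw [hQ, hnon', map_sub, heyN, hcK, ← map_sub]
          exact h2
      · refine Or.inr ⟨?_, b, ?_⟩
        · have h4 : (algebraMap R M x')⁻¹ ∈ Q.O.nonunits := by
            rw [hQ, hxinv]
            exact h1
          have h5 := (O_non_iff Q (inv_ne_zero hx0)).1 h4
          rw [Q.ord_inv] at h5
          omega
        · rw [hQ, hnon', map_sub, map_div₀, heyN, map_pow, hexN, hcK, ← map_pow, ← map_div₀,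
            ← map_sub]
          exact h2)
    intro σ
    rw [hQW]
    exact fixes_of_loc hζ (fun v hv => (hgood v hv).1) hL ι hC E hE3
        (fun e he => hE4 e hf0 ((hBf e).1 he)) hgoodV hδ0 hδI (hsec S hS) Q hgam
        (fun σ hσ => (hQW σ).1 (hloc σ hσ)) σ

end main

end Pool.Agent.Helper786_Rig
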