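import Pool.Agent.Helper786_Rig.Fin
import Pool.Agent.R925.L.Fin

/-!
# Sections are determined at one place: all quotients of the Galois group
-/

set_option autoImplicit false
set_option linter.all false

open Polynomial FF Pool.Agent.Y157.PS Pool.Agent.Y158.GR IsDedekindDomain NumberField

namespace Pool.Agent.Helper786_Rig

section main

variable {K F Ω L C : Type} [Field K] [NumberField K]
    [Field F] [Field Ω] [Algebra K F] [Algebra F Ω] [Algebra K Ω] [IsScalarTower K F Ω]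
    [IsAlgClosed Ω] [Algebra.IsAlgebraic F Ω]
    [Field L] [Field C] [Algebra K L] [Algebra L C] [Algebra K C]
    [IsScalarTower K L C] [CharZero L] [IsAlgClosure L C]

/-- a function field of a superelliptic curve is algebraic over `K(x)` -/
theorem alg_sup {ℓ : ℕ} (hℓ : 0 < ℓ) (g : (𝓞 K)[X]) (d : K) (hd : d ≠ 0) (x y : F)
    (hxy : algebraMap K F d * y ^ ℓ = aeval x (g.map (algebraMap (𝓞 K) K)))
    (hF : IntermediateField.adjoin K {x, y} = (⊤ : IntermediateField K F)) :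
    Algebra.IsAlgebraic (IntermediateField.adjoin K {x}) F :=
  Pool.Agent.R925.L.alg_eqn (m := 1) hℓ (g.map (algebraMap (𝓞 K) K)) 1 d hd x y
    (by rw [hxy, map_one, one_mul, pow_one]) hF

/-- **sections are determined at one place** -/
theorem numBoth {ℓ : ℕ} [hℓ : Fact ℓ.Prime] {ζ : K} (hζ : IsPrimitiveRoot ζ ℓ)
    (g : (𝓞 K)[X]) (d : K) (hd : d ≠ 0) (h3 : 3 ≤ g.natDegree) {m : ℕ} (hm : g.natDegree = ℓ * m)
    (hs : (g.map (algebraMap (𝓞 K) K)).Separable)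
    (hgal : IsPGroup ℓ (g.map (algebraMap (𝓞 K) K)).Gal)
    {T : Set (HeightOneSpectrum (𝓞 K))} (hT : T.Finite) (hgood : ∀ v, v ∉ T → GoodAt ℓ g d v)
    (hL : LocPow ℓ T L) (ι : algebraicClosure K Ω →ₐ[K] C)
    (x y : F) (hx : Transcendental K x)
    (hxy : algebraMap K F d * y ^ ℓ = aeval x (g.map (algebraMap (𝓞 K) K)))
    (hF : IntermediateField.adjoin K {x, y} = (⊤ : IntermediateField K F))
    (N : IntermediateField F Ω) (hN : geomPro ℓ K F Ω ≤ N)
    (S : (algebraicClosure K Ω ≃ₐ[K] algebraicClosure K Ω) →* (N ≃ₐ[F] N)) (hcont : Continuous S)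
    (hcompat : ∀ σ (c : algebraicClosure K Ω) (z : N), (z : Ω) = (c : Ω) →
      (S σ z : Ω) = (σ c : Ω)) :
    (∀ S' : (algebraicClosure K Ω ≃ₐ[K] algebraicClosure K Ω) →* (N ≃ₐ[F] N), Continuous S' →
      (∀ σ (c : algebraicClosure K Ω) (z : N), (z : Ω) = (c : Ω) → (S' σ z : Ω) = (σ c : Ω)) →
      (∀ σ, DecL L ι σ → ∀ z : N, (z : Ω) ∈ geomPro ℓ K F Ω → S σ z = S' σ z) →
      ∀ σ, ∀ z : N, (z : Ω) ∈ geomPro ℓ K F Ω → S σ z = S' σ z) ∧
    ∀ W : ValuationSubring N,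
        (∀ c : K, algebraMap F N (algebraMap K F c) ∈ W) →
        ((∃ a b : K, algebraMap F N (x - algebraMap K F a) ∈ W.nonunits ∧
            algebraMap F N (y - algebraMap K F b) ∈ W.nonunits) ∨
          (algebraMap F N x⁻¹ ∈ W.nonunits ∧ ∃ b : K,
            algebraMap F N (y / x ^ m - algebraMap K F b) ∈ W.nonunits)) →
        (∀ σ, DecL L ι σ → ∀ z : N, (z : Ω) ∈ geomPro ℓ K F Ω → (S σ z ∈ W ↔ z ∈ W)) →
        ∀ σ, ∀ z : N, (z : Ω) ∈ geomPro ℓ K F Ω → (S σ z ∈ W ↔ z ∈ W) := by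
  have halg := alg_sup hℓ.out.pos g d hd x y hxy hF
  have hind : ∀ S : (algebraicClosure K Ω ≃ₐ[K] algebraicClosure K Ω) →* (N ≃ₐ[F] N),
      Continuous S → (∀ σ (c : algebraicClosure K Ω) (z : N), (z : Ω) = (c : Ω) →
        (S σ z : Ω) = (σ c : Ω)) →
      ∃ T : (algebraicClosure K Ω ≃ₐ[K] algebraicClosure K Ω) →*
        (geomPro ℓ K F Ω ≃ₐ[F] geomPro ℓ K F Ω), SecG ℓ K F Ω T ∧
        ∀ σ (z : N) (w : geomPro ℓ K F Ω), (w : Ω) = (z : Ω) → (T σ w : Ω) = (S σ z : Ω) := by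
    intro S hcont hcompat
    obtain ⟨T, hTc, hT⟩ := a_ind2 ℓ K F Ω x hx halg N hN _ S hcont
    refine ⟨T, ⟨hTc, fun σ c z hz => ?_⟩, hT⟩
    have h1 : (z : Ω) ∈ N := hN z.2
    rw [hT σ ⟨(z : Ω), h1⟩ z rfl]
    exact hcompat σ c _ hz
  obtain ⟨h1, h2⟩ := geoBoth (Ω := Ω) hζ g d hd h3 hm hs hgal hT hgood hL ι x y hx hxy hF
  obtain ⟨P, hP, hPS⟩ := hind S hcont hcompat
  refine ⟨fun S' hcont' hcompat' h => ?_, fun W hWc hW hloc => ?_⟩
  · obtain ⟨P', hP', hPS'⟩ := hind S' hcont' hcompat'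
    have h3 : P = P' := h1 P P' hP hP' fun σ hσ => by
      ext w
      have hw : (w : Ω) ∈ N := hN w.2
      rw [hPS σ ⟨w, hw⟩ w rfl, hPS' σ ⟨w, hw⟩ w rfl, h σ hσ _ w.2]
    intro σ z hz
    apply Subtype.ext
    rw [← hPS σ z ⟨z, hz⟩ rfl, ← hPS' σ z ⟨z, hz⟩ rfl, h3]
  · obtain ⟨W₀, hW₀⟩ : ∃ W₀ : ValuationSubring (geomPro ℓ K F Ω),
        W₀ = W.comap ((IntermediateField.inclusion hN :
          geomPro ℓ K F Ω →ₐ[F] N) : geomPro ℓ K F Ω →+* N) := ⟨_, rfl⟩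
    have hmem : ∀ z : geomPro ℓ K F Ω, z ∈ W₀ ↔ IntermediateField.inclusion hN z ∈ W := fun z => by
      rw [hW₀]
      rfl
    have hnon : ∀ z : F, algebraMap F (geomPro ℓ K F Ω) z ∈ W₀.nonunits ↔
        algebraMap F N z ∈ W.nonunits := fun z => by
      rw [hW₀]
      exact (Pool.Agent.Y157.PS.non_incl ((IntermediateField.inclusion hN :
        geomPro ℓ K F Ω →ₐ[F] N) : geomPro ℓ K F Ω →+* N) W _)
    have hact : ∀ σ, (∀ z, P σ z ∈ W₀ ↔ z ∈ W₀) ↔
        ∀ z : N, (z : Ω) ∈ geomPro ℓ K F Ω → (S σ z ∈ W ↔ z ∈ W) := by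
      intro σ
      have h3 : ∀ z : geomPro ℓ K F Ω, IntermediateField.inclusion hN (P σ z) =
          S σ (IntermediateField.inclusion hN z) := fun z => by
        apply Subtype.ext
        exact hPS σ (IntermediateField.inclusion hN z) z rfl
      constructor
      · intro h z hz
        have h4 := h ⟨z, hz⟩
        rw [hmem, hmem, h3] at h4
        exact h4
      · intro h z
        rw [hmem, hmem, h3]
        exact h _ z.2
    intro σ
    rw [← hact]
    refine h2 P hP W₀ (fun c => ?_) ?_ (fun σ hσ => (hact σ).2 (hloc σ hσ)) σ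
    · rw [hmem]
      exact hWc c
    · simp only [hnon]
      exact hW

end main

end Pool.Agent.Helper786_Rig
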