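import Pool.Agent.Helper786_Rig.Fin
import Pool.Agent.Y158.KL.Hil7

/-!
# The number theoretic condition over the cyclotomic field, for regular primes
-/

set_option autoImplicit false
set_option linter.all false

open Polynomial IsDedekindDomain NumberField WithZero

namespace Pool.Agent.Helper786_Rig

section cyc

variable {K : Type} [Field K] [NumberField K] {ℓ : ℕ}
  [hp : Fact ℓ.Prime] [hK : IsCyclotomicExtension {ℓ} ℚ K] {ζ : K} (hζ : IsPrimitiveRoot ζ ℓ)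

open Pool.Agent.Y158.KL

include hK in
theorem rank_int : Module.finrank ℤ (𝓞 K) = ℓ - 1 := by
  haveI : NeZero ℓ := ⟨hp.out.ne_zero⟩
  rw [RingOfIntegers.rank, IsCyclotomicExtension.finrank (n := ℓ) K
    (cyclotomic.irreducible_rat hp.out.pos), Nat.totient_prime hp.out]

include hζ in
/-- a primitive root modulo `ℓ` is inert -/
theorem inert {p : ℕ} (hpp : p.Prime) (hpℓ : p ≠ ℓ) (hord : orderOf (p : ZMod ℓ) = ℓ - 1)
    {v : HeightOneSpectrum (𝓞 K)} (hv : (p : 𝓞 K) ∈ v.asIdeal) :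
    v.asIdeal = Ideal.span {(p : 𝓞 K)} := by
  classical
  have hℓ := hp.out
  have hvℓ : (ℓ : 𝓞 K) ∉ v.asIdeal := by
    intro h
    apply v.isPrime.ne_top
    rw [Ideal.eq_top_iff_one]
    obtain ⟨a, b, hab⟩ := Nat.isCoprime_iff_coprime.2 ((Nat.coprime_primes hpp hℓ).2 hpℓ)
    have h6 : (1 : 𝓞 K) = (a : 𝓞 K) * (p : 𝓞 K) + (b : 𝓞 K) * (ℓ : 𝓞 K) := by
      have := congrArg (Int.cast : ℤ → 𝓞 K) hab
      push_cast at this
      exact this.symm
    rw [h6]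
    exact add_mem (v.asIdeal.mul_mem_left _ hv) (v.asIdeal.mul_mem_left _ h)
  have hnorm : Ideal.absNorm v.asIdeal ∣ p ^ (ℓ - 1) := by
    have h1 := Ideal.absNorm_span_natCast (S := 𝓞 K) p
    rw [rank_int (ℓ := ℓ)] at h1
    rw [← h1]
    exact Ideal.absNorm_dvd_absNorm_of_le ((Ideal.span_singleton_le_iff_mem _).2 hv)
  obtain ⟨f, hf, hNf⟩ := (Nat.dvd_prime_pow hpp).1 hnorm
  haveI : v.asIdeal.IsMaximal := v.isMaximal
  haveI hfin : Finite (𝓞 K ⧸ v.asIdeal) := Ideal.finiteQuotientOfFreeOfNeBot _ v.ne_bot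
  letI : Field (𝓞 K ⧸ v.asIdeal) := Ideal.Quotient.field _
  letI : Fintype (𝓞 K ⧸ v.asIdeal) := Fintype.ofFinite _
  have hcard : Fintype.card (𝓞 K ⧸ v.asIdeal) = p ^ f := by
    rw [← Nat.card_eq_fintype_card, ← hNf]
    rfl
  -- the root of unity
  have hz1 : Ideal.Quotient.mk v.asIdeal hζ.toInteger ^ ℓ = 1 := by
    rw [← map_pow, hζ.toInteger_isPrimitiveRoot.pow_eq_one, map_one]
  have hz2 : Ideal.Quotient.mk v.asIdeal hζ.toInteger ≠ 1 := by
    intro h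
    rw [← map_one (Ideal.Quotient.mk v.asIdeal), Ideal.Quotient.eq] at h
    apply hvℓ
    have h2 := (IsCyclotomicExtension.Rat.associated_zeta_sub_one_pow_prime ℓ hζ).dvd
    obtain ⟨c, hc⟩ := h2
    have h3 : (hζ.toInteger - 1) ^ (ℓ - 1) ∈ v.asIdeal :=
      Ideal.pow_mem_of_mem _ h _ (Nat.sub_pos_of_lt hℓ.one_lt)
    rw [hc]
    exact v.asIdeal.mul_mem_right _ h3
  have hz0 : Ideal.Quotient.mk v.asIdeal hζ.toInteger ≠ 0 := by
    intro h
    rw [h, zero_pow hℓ.ne_zero] at hz1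
    exact zero_ne_one hz1
  have hordz : orderOf (Units.mk0 _ hz0) = ℓ := by
    refine orderOf_eq_prime ?_ ?_
    · apply Units.ext
      rw [Units.val_pow_eq_pow_val, Units.val_mk0, hz1, Units.val_one]
    · intro h
      apply hz2
      have := congrArg Units.val h
      simpa using this
  have hdvd : ℓ ∣ p ^ f - 1 := by
    rw [← hordz, ← hcard, ← Fintype.card_units]
    exact orderOf_dvd_card
  have hpf : (p : ZMod ℓ) ^ f = 1 := by
    have h1 : 1 ≤ p ^ f := Nat.one_le_pow _ _ hpp.pos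
    have h2 : ((p ^ f - 1 : ℕ) : ZMod ℓ) = 0 := (ZMod.natCast_eq_zero_iff _ _).2 hdvd
    rw [Nat.cast_sub h1, Nat.cast_pow, Nat.cast_one, sub_eq_zero] at h2
    exact h2
  have h3 : ℓ - 1 ∣ f := by
    rw [← hord]
    exact orderOf_dvd_of_pow_eq_one hpf
  have hf0 : f ≠ 0 := by
    rintro rfl
    rw [pow_zero] at hNf
    exact v.isPrime.ne_top (Ideal.absNorm_eq_one_iff.1 hNf)
  have hf' : f = ℓ - 1 := le_antisymm hf (Nat.le_of_dvd (Nat.pos_of_ne_zero hf0) h3)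
  -- conclusion
  have hle : Ideal.span {(p : 𝓞 K)} ≤ v.asIdeal := (Ideal.span_singleton_le_iff_mem _).2 hv
  obtain ⟨J, hJ⟩ := Ideal.dvd_iff_le.2 hle
  have hJ1 : Ideal.absNorm J = 1 := by
    have h1 := Ideal.absNorm_span_natCast (S := 𝓞 K) p
    rw [rank_int (ℓ := ℓ), hJ, map_mul, hNf, hf'] at h1
    exact Nat.eq_of_mul_eq_mul_left (pow_pos hpp.pos _) (by rw [h1, mul_one])
  rw [hJ, Ideal.absNorm_eq_one_iff.1 hJ1, Ideal.mul_top]

/-- the norm modulo an integer -/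
theorem norm_mod {x y : 𝓞 K} {m : ℕ} (h : (m : 𝓞 K) ∣ x - y) :
    ((Algebra.norm ℤ x : ℤ) : ZMod m) = ((Algebra.norm ℤ y : ℤ) : ZMod m) := by
  classical
  obtain ⟨c, hc⟩ := h
  have hx : x = y + (m : 𝓞 K) * c := by rw [← hc]; ring
  let b := Module.Free.chooseBasis ℤ (𝓞 K)
  rw [Algebra.norm_eq_matrix_det b, Algebra.norm_eq_matrix_det b]
  change (Int.castRingHom (ZMod m)) _ = (Int.castRingHom (ZMod m)) _
  rw [RingHom.map_det, RingHom.map_det]
  congr 1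
  ext i j
  rw [RingHom.mapMatrix_apply, RingHom.mapMatrix_apply, Matrix.map_apply, Matrix.map_apply, hx,
    map_add, map_mul, Matrix.add_apply, map_add]
  rw [map_natCast, ← nsmul_eq_mul, Matrix.smul_apply, nsmul_eq_mul, map_mul]
  simp

include hζ in
/-- **the number theoretic condition for `K = ℚ(ζ)`** -/
theorem locPow_cyc (hodd : ℓ ≠ 2) (hcop : (classNumber K).Coprime ℓ) {p : ℕ} (hpp : p.Prime)
    (hord : orderOf (p : ZMod (ℓ ^ 2)) = ℓ * (ℓ - 1)) :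
    LocPow ℓ {v : HeightOneSpectrum (𝓞 K) | ((ℓ * p : ℕ) : 𝓞 K) ∈ v.asIdeal} (Kl hζ) := by
  classical
  have hℓ := hp.out
  have hℓ2 : 2 < ℓ := lt_of_le_of_ne hℓ.two_le (Ne.symm hodd)
  have hoddℓ : Odd ℓ := hℓ.odd_of_ne_two hodd
  have hKL := kummer_lemma hζ hℓ2 hcop
  -- elementary facts on `p`
  have hpℓ : p ≠ ℓ := by
    rintro rfl
    have h1 : (p : ZMod (p ^ 2)) ^ 2 = 0 := by
      rw [← Nat.cast_pow, ZMod.natCast_self]
    have h2 : (p : ZMod (p ^ 2)) ^ (p * (p - 1)) = 1 := by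
      rw [← hord]
      exact pow_orderOf_eq_one _
    have h3 : 2 ≤ p * (p - 1) := by
      have := hℓ.two_le
      calc 2 = 2 * 1 := rfl
        _ ≤ p * (p - 1) := Nat.mul_le_mul this (by omega)
    obtain ⟨c, hc⟩ := Nat.exists_eq_add_of_le h3
    rw [hc, pow_add, h1, zero_mul] at h2
    haveI : Fact (1 < p ^ 2) := ⟨Nat.one_lt_pow two_ne_zero hℓ.one_lt⟩
    exact zero_ne_one h2
  have hunit : IsUnit (p : ZMod ℓ) := by
    rw [ZMod.isUnit_iff_coprime]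
    exact (Nat.coprime_primes hpp hℓ).2 hpℓ
  have hord1 : orderOf (p : ZMod ℓ) = ℓ - 1 := by
    apply Nat.dvd_antisymm
    · obtain ⟨u, hu⟩ := hunit
      rw [← hu, orderOf_units]
      have h1 := orderOf_dvd_card (x := u)
      rwa [ZMod.card_units] at h1
    · have h1 : (p : ZMod (ℓ ^ 2)) ^ (orderOf (p : ZMod ℓ) * ℓ) = 1 := by
        have h2 : (p : ZMod ℓ) ^ orderOf (p : ZMod ℓ) = 1 := pow_orderOf_eq_one _
        have h3 : (p ^ orderOf (p : ZMod ℓ)) ≡ 1 [MOD ℓ] := by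
          rw [← ZMod.natCast_eq_natCast_iff]
          push_cast
          exact h2
        have h4 : (p ^ orderOf (p : ZMod ℓ)) ^ ℓ ≡ 1 ^ ℓ [MOD ℓ ^ 2] := by
          have h5 : (ℓ : ℤ) ∣ ((p : ℤ) ^ orderOf (p : ZMod ℓ)) - 1 := by
            have := (Nat.modEq_iff_dvd.1 h3.symm)
            push_cast at this
            exact this
          have h6 := dvd_sub_pow_of_dvd_sub (R := ℤ) (p := ℓ) h5 1
          rw [Nat.modEq_iff_dvd]
          have h7 : ((ℓ : ℤ) ^ 2) ∣ 1 ^ ℓ - ((p : ℤ) ^ orderOf (p : ZMod ℓ)) ^ ℓ := by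
            rw [← dvd_neg, neg_sub]
            simpa using h6
          push_cast
          exact h7
        rw [← ZMod.natCast_eq_natCast_iff] at h4
        push_cast at h4
        rw [one_pow] at h4
        rw [pow_mul]
        exact h4
      have h2 := orderOf_dvd_of_pow_eq_one h1
      rw [hord, mul_comm ℓ] at h2
      exact Nat.dvd_of_mul_dvd_mul_right hℓ.pos h2
  have hpO : (p : 𝓞 K) ≠ 0 := Nat.cast_ne_zero.2 hpp.ne_zero
  have hpK : (p : K) ≠ 0 := Nat.cast_ne_zero.2 hpp.ne_zero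
  obtain ⟨I, hI, hpI⟩ := exists_max_ideal_of_mem_nonunits (not_unit (K := K) hpp)
  have hI0 : I ≠ ⊥ := by
    intro h
    rw [h] at hpI
    exact hpO ((Ideal.mem_bot).1 hpI)
  obtain ⟨vp, hvp⟩ : ∃ v : HeightOneSpectrum (𝓞 K), (p : 𝓞 K) ∈ v.asIdeal :=
    ⟨⟨I, hI.isPrime, hI0⟩, hpI⟩
  have huniq : ∀ v : HeightOneSpectrum (𝓞 K), (p : 𝓞 K) ∈ v.asIdeal → v = vp := by
    intro v hv
    apply HeightOneSpectrum.ext
    rw [inert hζ hpp hpℓ hord1 hv, inert hζ hpp hpℓ hord1 hvp]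
  have hvalp : vp.valuation K (p : K) = exp (-1) := by
    rw [← map_natCast (algebraMap (𝓞 K) K), vp.valuation_of_algebraMap]
    exact vp.intValuation_singleton hpO (inert hζ hpp hpℓ hord1 hvp)
  have hvaln : ∀ v : HeightOneSpectrum (𝓞 K), v ≠ vp → v.valuation K (p : K) = 1 := by
    intro v hv
    rw [← map_natCast (algebraMap (𝓞 K) K), v.valuation_of_algebraMap,
      HeightOneSpectrum.intValuation_eq_one_iff]
    exact fun h => hv (huniq v h)
  have hlamp : lam hζ ≠ vp := by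
    intro h
    have h1 : (ℓ : 𝓞 K) ∈ vp.asIdeal := by
      rw [← h]
      change (ℓ : 𝓞 K) ∈ Ideal.span {hζ.toInteger - 1}
      rw [Ideal.mem_span_singleton]
      exact (dvd_pow_self _ (Nat.sub_pos_of_lt hℓ.one_lt).ne').trans
        (IsCyclotomicExtension.Rat.associated_zeta_sub_one_pow_prime ℓ hζ).dvd
    apply vp.isPrime.ne_top
    rw [Ideal.eq_top_iff_one]
    obtain ⟨a, b, hab⟩ := Nat.isCoprime_iff_coprime.2 ((Nat.coprime_primes hpp hℓ).2 hpℓ)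
    have h6 : (1 : 𝓞 K) = (a : 𝓞 K) * (p : 𝓞 K) + (b : 𝓞 K) * (ℓ : 𝓞 K) := by
      have := congrArg (Int.cast : ℤ → 𝓞 K) hab
      push_cast at this
      exact this.symm
    rw [h6]
    exact add_mem (vp.asIdeal.mul_mem_left _ hvp) (vp.asIdeal.mul_mem_left _ h1)
  rintro z hz hdvd ⟨w, hw⟩
  obtain ⟨m, hm⟩ := exists_exp ((vp.valuation K).ne_zero_iff.2 hz)
  obtain ⟨u, k, hk, hu⟩ := exists_unit_mul_pow hℓ.pos hcop (z * (p : K) ^ m)
    (mul_ne_zero hz (zpow_ne_zero _ hpK)) (by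
    intro v
    by_cases hv : v = vp
    · subst hv
      refine ⟨1, ?_⟩
      rw [map_mul, map_zpow₀, hm, hvalp, one_pow, ← exp_zsmul, ← exp_add, ← exp_zero]
      congr 1
      simp
    · by_cases hv' : v = lam hζ
      · subst hv'
        refine ⟨V hζ w, ?_⟩
        rw [map_mul, map_zpow₀, hvaln _ hv, one_zpow, mul_one, ← map_pow, hw]
        exact (V_cm hζ z).symm
      · obtain ⟨t, ht⟩ := hdvd v (by
          intro h
          have h1 : ((ℓ * p : ℕ) : 𝓞 K) ∈ v.asIdeal := h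
          rw [Nat.cast_mul] at h1
          rcases v.isPrime.mem_or_mem h1 with h2 | h2
          · have h3 := other_pi hζ hv'
            have h4 : v.intValuation (ℓ : 𝓞 K) = 1 := by
              rw [← lam_assoc (v := v)
                (IsCyclotomicExtension.Rat.associated_zeta_sub_one_pow_prime ℓ hζ), map_pow, h3,
                one_pow]
            rw [HeightOneSpectrum.intValuation_eq_one_iff] at h4
            exact h4 h2
          · exact hv (huniq v h2))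
        refine ⟨v.valuation K t, ?_⟩
        rw [map_mul, map_zpow₀, hvaln _ hv, one_zpow, mul_one, ht])
  -- the unit times a power of `p` is an `ℓ`-th power in the completion
  obtain ⟨b, c, hbc⟩ : ∃ (b : ℕ) (c : ℤ), -m = b + ℓ * c := by
    have hℓ0 : (ℓ : ℤ) ≠ 0 := by exact_mod_cast hℓ.ne_zero
    refine ⟨((-m) % ℓ).toNat, (-m) / ℓ, ?_⟩
    rw [Int.toNat_of_nonneg (Int.emod_nonneg _ hℓ0), Int.emod_add_mul_ediv]
  have hzu : z = algebraMap (𝓞 K) K u * (p : K) ^ b * (k * (p : K) ^ c) ^ ℓ := by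
    have h1 : z = algebraMap (𝓞 K) K u * k ^ ℓ * (p : K) ^ (-m) := by
      rw [← hu, mul_assoc, ← zpow_add₀ hpK, add_neg_cancel, zpow_zero, mul_one]
    rw [h1, hbc, zpow_add₀ hpK, zpow_natCast, mul_comm (ℓ : ℤ) c, zpow_mul, zpow_natCast, mul_pow]
    ring
  have hkp : k * (p : K) ^ c ≠ 0 := mul_ne_zero hk (zpow_ne_zero _ hpK)
  have hkp' : cm hζ (k * (p : K) ^ c) ≠ 0 := (_root_.map_ne_zero _).2 hkp
  obtain ⟨w', hw'⟩ : ∃ w' : Kl hζ, w' = w / cm hζ (k * (p : K) ^ c) := ⟨_, rfl⟩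
  have hw'u : w' ^ ℓ = om hζ (u * (p : 𝓞 K) ^ b) := by
    have h1 : w ^ ℓ = cm hζ z := hw
    rw [hw', div_pow, h1]
    conv_lhs => rw [hzu]
    rw [map_mul, map_pow, mul_div_assoc, div_self (pow_ne_zero _ hkp'), mul_one]
    change _ = cm hζ (algebraMap (𝓞 K) K (u * (p : 𝓞 K) ^ b))
    rw [map_mul (algebraMap (𝓞 K) K), map_pow (algebraMap (𝓞 K) K), map_natCast, map_mul, map_pow,
      map_natCast]
  have hVup : V hζ (om hζ (u * (p : 𝓞 K) ^ b)) = 1 := by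
    rw [map_mul, map_mul, V_unit, one_mul, V_om, map_pow]
    have h1 := hvaln _ hlamp
    rw [← map_natCast (algebraMap (𝓞 K) K), (lam hζ).valuation_of_algebraMap] at h1
    rw [h1, one_pow]
  have hVw : V hζ w' = 1 := by
    have h1 : V hζ w' ^ ℓ = 1 := by rw [← map_pow, hw'u, hVup]
    exact (pow_eq_one_iff_of_nonneg zero_le hℓ.ne_zero).1 h1
  obtain ⟨a₀, ha₀⟩ := near_int (lam hζ) w' hVw.le (2 * (ℓ - 1))
  have hdvd2 : ((ℓ ^ 2 : ℕ) : 𝓞 K) ∣ (u * (p : 𝓞 K) ^ b) - a₀ ^ ℓ := by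
    have h1 : (lam hζ).intValuation ((u * (p : 𝓞 K) ^ b) - a₀ ^ ℓ) ≤
        exp (-((2 * (ℓ - 1) : ℕ) : ℤ)) := by
      rw [← V_om, map_sub, ← hw'u, map_pow]
      have h2 : V hζ (om hζ a₀) ≤ 1 := by
        rw [V_om]
        exact HeightOneSpectrum.intValuation_le_one _ _
      obtain ⟨r, hr⟩ := sub_dvd_pow_sub_pow (⟨w', hVw.le⟩ : (V hζ).integer) ⟨om hζ a₀, h2⟩ ℓ
      have h3 := congrArg Subtype.val hr
      push_cast at h3
      have h4 : w' ^ ℓ - om hζ a₀ ^ ℓ = (w' - om hζ a₀) * (r : Kl hζ) := h3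
      rw [h4, map_mul]
      exact (mul_le_of_le_one_right zero_le r.2).trans ha₀
    rw [lam_dvd, mul_comm 2, pow_mul] at h1
    have h2 : (ℓ : 𝓞 K) ^ 2 ∣ ((hζ.toInteger - 1) ^ (ℓ - 1)) ^ 2 :=
      pow_dvd_pow_of_dvd (IsCyclotomicExtension.Rat.associated_zeta_sub_one_pow_prime ℓ
        hζ).symm.dvd 2
    push_cast
    exact h2.trans h1
  have hN := norm_mod hdvd2
  have hNp : Algebra.norm ℤ ((p : 𝓞 K) ^ b) = (p : ℤ) ^ (b * (ℓ - 1)) := by
    have h1 : ((p : 𝓞 K) ^ b) = algebraMap ℤ (𝓞 K) ((p : ℤ) ^ b) := by simp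
    rw [h1, Algebra.norm_algebraMap, rank_int (ℓ := ℓ), ← pow_mul]
  have hNu : Algebra.norm ℤ (u : 𝓞 K) ^ 2 = 1 := by
    have h1 : IsUnit (Algebra.norm ℤ (u : 𝓞 K)) := u.isUnit.map _
    rcases Int.isUnit_iff.1 h1 with h2 | h2 <;> rw [h2] <;> norm_num
  obtain ⟨A, hA⟩ : ∃ A : ℤ, A = Algebra.norm ℤ a₀ := ⟨_, rfl⟩
  have hsq : ((p : ZMod (ℓ ^ 2)) ^ (b * (ℓ - 1))) ^ 2 = (((A ^ 2) ^ ℓ : ℤ) : ZMod (ℓ ^ 2)) := by
    rw [map_mul, hNp, map_pow, ← hA] at hN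
    have h1 := congrArg (fun t => t ^ 2) hN
    rw [← Int.cast_pow, mul_pow, hNu, one_mul] at h1
    push_cast at h1 ⊢
    rw [h1]
    ring
  have hA1 : (ℓ : ℤ) ∣ A ^ 2 - 1 := by
    have h1 : ((p : ZMod ℓ) ^ (b * (ℓ - 1))) ^ 2 = (((A ^ 2) ^ ℓ : ℤ) : ZMod ℓ) := by
      have h2 := congrArg (ZMod.castHom (dvd_pow_self ℓ two_ne_zero) (ZMod ℓ)) hsq
      rw [map_pow, map_pow, map_natCast, map_intCast] at h2
      exact h2
    have h2 : (p : ZMod ℓ) ^ (ℓ - 1) = 1 := by rw [← hord1]; exact pow_orderOf_eq_one _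
    rw [mul_comm b, pow_mul, h2, one_pow, one_pow, Int.cast_pow, ZMod.pow_card] at h1
    rw [← ZMod.intCast_zmod_eq_zero_iff_dvd]
    push_cast at h1 ⊢
    rw [← h1, sub_self]
  have hA2 : (((A ^ 2) ^ ℓ : ℤ) : ZMod (ℓ ^ 2)) = 1 := by
    have h6 := dvd_sub_pow_of_dvd_sub (R := ℤ) (p := ℓ) hA1 1
    have h7 : (((ℓ ^ 2 : ℕ) : ℤ)) ∣ (A ^ 2) ^ ℓ - 1 := by
      push_cast
      simpa using h6
    rw [← ZMod.intCast_zmod_eq_zero_iff_dvd] at h7
    rw [Int.cast_sub, Int.cast_one, sub_eq_zero] at h7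
    exact h7
  rw [hA2, ← pow_mul] at hsq
  have hℓb : ℓ ∣ b := by
    have h1 := orderOf_dvd_of_pow_eq_one hsq
    rw [hord] at h1
    have h2 : b * (ℓ - 1) * 2 = (2 * b) * (ℓ - 1) := by ring
    rw [h2] at h1
    have h3 := Nat.dvd_of_mul_dvd_mul_right (by omega : 0 < ℓ - 1) h1
    rcases (Nat.Prime.dvd_mul hℓ).1 h3 with h4 | h4
    · exact absurd (Nat.le_of_dvd two_pos h4) (not_le.2 hℓ2)
    · exact h4
  obtain ⟨b', rfl⟩ := hℓb
  -- Kummer's lemma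
  have hp' : (p : Kl hζ) ≠ 0 := by
    rw [← map_natCast (cm hζ)]
    exact (_root_.map_ne_zero _).2 hpK
  obtain ⟨w₂, hw₂⟩ : ∃ w₂ : Kl hζ, w₂ = w' / (p : Kl hζ) ^ b' := ⟨_, rfl⟩
  have hw₂u : w₂ ^ ℓ = om hζ u := by
    rw [hw₂, div_pow, hw'u, map_mul, map_pow, map_natCast, mul_comm ℓ b', pow_mul,
      mul_div_assoc, div_self (pow_ne_zero _ (pow_ne_zero _ hp')), mul_one]
  have hVw₂ : V hζ w₂ = 1 := by
    have h1 : V hζ w₂ ^ ℓ = 1 := by rw [← map_pow, hw₂u, V_unit]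
    exact (pow_eq_one_iff_of_nonneg zero_le hℓ.ne_zero).1 h1
  obtain ⟨n, hn⟩ := pow_near hζ (w := w₂) hVw₂.le
  obtain ⟨η, hη⟩ := hKL u n (by
    apply ell_dvd_of hζ
    rw [← V_om, map_sub, map_intCast, ← hw₂u]
    exact hn)
  refine ⟨algebraMap (𝓞 K) K η * (p : K) ^ b' * (k * (p : K) ^ c), ?_⟩
  rw [hzu, hη]
  push_cast
  rw [mul_pow, mul_pow, mul_comm ℓ b', pow_mul]

end cyc

end Pool.Agent.Helper786_Rig
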