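import Pool.Agent.Helper786_Rig.Fin
import Mathlib.NumberTheory.Padics.HeightOneSpectrum
import Mathlib.NumberTheory.Padics.RingHoms

/-!
# The number theoretic condition over the rational numbers, for `ℓ = 2`
-/

set_option autoImplicit false
set_option linter.all false

open Polynomial IsDedekindDomain NumberField

namespace Pool.Agent.Helper786_Rig

section two

/-- the primes which divide `n` -/
def PrimesAt (n : ℕ) : Set (HeightOneSpectrum (𝓞 ℚ)) := {v | (n : 𝓞 ℚ) ∈ v.asIdeal}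

theorem mem_asIdeal (v : HeightOneSpectrum (𝓞 ℚ)) (n : ℕ) :
    (n : 𝓞 ℚ) ∈ v.asIdeal ↔ (Rat.HeightOneSpectrum.primesEquiv v : ℕ) ∣ n := by
  have h := Rat.HeightOneSpectrum.natGenerator_dvd_iff v (n := n)
  change _ ↔ Rat.HeightOneSpectrum.natGenerator v ∣ n
  rw [h, ← map_natCast (Rat.IsIntegralClosure.intEquiv (𝓞 ℚ)) n, Ideal.apply_mem_of_equiv_iff]

theorem val_one_iff (v : HeightOneSpectrum (𝓞 ℚ)) {q : ℕ} [hq : Fact q.Prime]
    (h : (Rat.HeightOneSpectrum.primesEquiv v : ℕ) = q) {z : ℚ} (hz : z ≠ 0) :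
    v.valuation ℚ z = 1 ↔ padicValRat q z = 0 := by
  subst h
  have h1 := Rat.HeightOneSpectrum.valuation_equiv_padicValuation v
  rw [h1.eq_one_iff_eq_one]
  change (if z = 0 then 0 else WithZero.exp (-padicValRat _ z)) = 1 ↔ _
  rw [if_neg hz, ← WithZero.exp_zero, WithZero.exp_inj, neg_eq_zero]

theorem exists_place {q : ℕ} (hq : q.Prime) :
    ∃ v : HeightOneSpectrum (𝓞 ℚ), (Rat.HeightOneSpectrum.primesEquiv v : ℕ) = q :=
  ⟨Rat.HeightOneSpectrum.primesEquiv.symm ⟨q, hq⟩,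
    congrArg Subtype.val (Equiv.apply_symm_apply Rat.HeightOneSpectrum.primesEquiv ⟨q, hq⟩)⟩

/-- the valuation at `q` is divisible by `ℓ` -/
theorem dvd_val {ℓ : ℕ} (hℓ : ℓ ≠ 0) {T : Set (HeightOneSpectrum (𝓞 ℚ))} {z : ℚ} (hz : z ≠ 0)
    (h : DvdOutside ℓ T z) {q : ℕ} [hq : Fact q.Prime]
    (hqT : ∀ v : HeightOneSpectrum (𝓞 ℚ), (Rat.HeightOneSpectrum.primesEquiv v : ℕ) = q → v ∉ T) :
    (ℓ : ℤ) ∣ padicValRat q z := by
  obtain ⟨v, hv⟩ := exists_place hq.out
  obtain ⟨t, ht⟩ := h v (hqT v hv)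
  have hvz : v.valuation ℚ z ≠ 0 := (Valuation.ne_zero_iff _).2 hz
  have ht0 : t ≠ 0 := by
    rintro rfl
    rw [map_zero, zero_pow hℓ] at ht
    exact hvz ht
  have h1 : v.valuation ℚ (z / t ^ ℓ) = 1 := by
    rw [map_div₀, map_pow, ← ht, div_self hvz]
  rw [val_one_iff v hv (div_ne_zero hz (pow_ne_zero _ ht0)),
    padicValRat.div hz (pow_ne_zero _ ht0), padicValRat.pow, sub_eq_zero] at h1
  rw [h1]
  exact dvd_mul_right _ _

/-- natural numbers with even valuations outside of `2` and `p` -/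
theorem nat_form {n p : ℕ} (hp : p.Prime) (hn : n ≠ 0)
    (h : ∀ q : ℕ, q.Prime → q ≠ 2 → q ≠ p → 2 ∣ padicValNat q n) :
    ∃ a b : ℕ, n = a * b ^ 2 ∧ (a = 1 ∨ a = 2 ∨ a = p ∨ a = 2 * p) := by
  obtain ⟨a, b, hab, hsq⟩ := Nat.sq_mul_squarefree n
  have hb : b ≠ 0 := by
    rintro rfl
    rw [zero_pow two_ne_zero, zero_mul] at hab
    exact hn hab.symm
  have ha : a ≠ 0 := hsq.ne_zero
  refine ⟨a, b, by rw [← hab, mul_comm], ?_⟩
  have hdvd : a ∣ 2 * p := by
    rw [← Nat.prod_primeFactors_of_squarefree hsq]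
    have h1 : a.primeFactors ⊆ {2, p} := by
      intro q hq
      have hqp := Nat.prime_of_mem_primeFactors hq
      haveI : Fact q.Prime := ⟨hqp⟩
      by_contra hno
      rw [Finset.mem_insert, Finset.mem_singleton, not_or] at hno
      have h2 := h q hqp hno.1 hno.2
      rw [← hab, padicValNat.mul (pow_ne_zero _ hb) ha, padicValNat.pow] at h2
      have h3 : 2 ∣ padicValNat q a := (Nat.dvd_add_right (dvd_mul_right _ _)).1 h2
      have h4 : padicValNat q a ≤ 1 := by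
        have h5 := (Nat.squarefree_iff_factorization_le_one ha).1 hsq q
        rwa [Nat.factorization_def _ hqp] at h5
      have h5 : 1 ≤ padicValNat q a :=
        one_le_padicValNat_of_dvd ha (Nat.dvd_of_mem_primeFactors hq)
      omega
    refine (Finset.prod_dvd_prod_of_subset _ _ _ h1).trans ?_
    by_cases h2 : 2 = p
    · rw [← h2, Finset.pair_eq_singleton, Finset.prod_singleton]
      exact dvd_mul_right _ _
    · rw [Finset.prod_pair h2]
  have h1 := (Nat.Coprime.dvd_mul_left (n := p) (m := 2) (k := a))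
  rcases (Nat.dvd_prime hp).1 (Nat.gcd_dvd_right a p) with h2 | h2
  · have h3 : a ∣ 2 := Nat.Coprime.dvd_of_dvd_mul_right h2 hdvd
    rcases (Nat.dvd_prime Nat.prime_two).1 h3 with h4 | h4
    · exact Or.inl h4
    · exact Or.inr (Or.inl h4)
  · have h3 : p ∣ a := by rw [← h2]; exact Nat.gcd_dvd_left _ _
    obtain ⟨c, rfl⟩ := h3
    have h4 : c ∣ 2 := by
      rw [mul_comm 2 p] at hdvd
      exact Nat.dvd_of_mul_dvd_mul_left hp.pos hdvd
    rcases (Nat.dvd_prime Nat.prime_two).1 h4 with h5 | h5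
    · rw [h5, mul_one]
      exact Or.inr (Or.inr (Or.inl rfl))
    · rw [h5, mul_comm]
      exact Or.inr (Or.inr (Or.inr rfl))

/-- integers which are squares in `ℚ₂` -/
theorem sq_mod {c : ℤ} {w : ℚ_[2]} (h : w ^ 2 = (c : ℚ_[2])) :
    (c : ZMod 8) = 0 ∨ (c : ZMod 8) = 1 ∨ (c : ZMod 8) = 4 := by
  have hw : ‖w‖ ≤ 1 := by
    have h1 : ‖w‖ ^ 2 ≤ 1 := by
      rw [← norm_pow, h]
      exact Padic.norm_int_le_one c
    nlinarith [norm_nonneg w]
  obtain ⟨u, hu⟩ : ∃ u : ℤ_[2], u ^ 2 = (c : ℤ_[2]) :=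
    ⟨⟨w, hw⟩, by
      apply Subtype.ext
      exact h⟩
  have h2 := congrArg (PadicInt.toZModPow (p := 2) 3) hu
  rw [map_pow, map_intCast] at h2
  obtain ⟨r, hr⟩ : ∃ r : ZMod (2 ^ 3), r = PadicInt.toZModPow (p := 2) 3 u := ⟨_, rfl⟩
  rw [← hr] at h2
  have h3 : ∀ r : ZMod 8, r ^ 2 = 0 ∨ r ^ 2 = 1 ∨ r ^ 2 = 4 := by decide
  have h4 := h3 r
  rw [h2] at h4
  exact h4

/-- **the number theoretic condition for `K = ℚ`, `ℓ = 2`** -/
theorem locPow_two {p : ℕ} (hp : p.Prime) (hp8 : p % 8 = 3 ∨ p % 8 = 5) :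
    LocPow 2 (PrimesAt (2 * p)) ℚ_[2] := by
  rintro z hz hdvd ⟨w, hw⟩
  have hnd0 : z.num.natAbs * z.den ≠ 0 := by
    rw [Ne, Nat.mul_eq_zero, not_or, Int.natAbs_eq_zero, Rat.num_eq_zero]
    exact ⟨hz, z.den_nz⟩
  have hz2 : ((z.num.natAbs * z.den : ℕ) : ℚ) = |z| * (z.den : ℚ) ^ 2 := by
    have h1 : (z.num : ℚ) = z * z.den := (Rat.mul_den_eq_num z).symm
    push_cast
    rw [Nat.cast_natAbs, Int.cast_abs, h1, abs_mul, Nat.abs_cast]
    ring
  have hden0 : (z.den : ℚ) ≠ 0 := by exact_mod_cast z.den_nz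
  obtain ⟨a, b, hab, ha⟩ := nat_form hp hnd0 fun q hq h2 hqp => by
    haveI : Fact q.Prime := ⟨hq⟩
    have h3 : ((2 : ℕ) : ℤ) ∣ padicValRat q z := dvd_val two_ne_zero hz hdvd fun v hv hvT => by
      have h4 : (Rat.HeightOneSpectrum.primesEquiv v : ℕ) ∣ 2 * p := (mem_asIdeal v _).1 hvT
      rw [hv] at h4
      rcases (Nat.Prime.dvd_mul hq).1 h4 with h5 | h5
      · exact h2 ((Nat.prime_dvd_prime_iff_eq hq Nat.prime_two).1 h5)
      · exact hqp ((Nat.prime_dvd_prime_iff_eq hq hp).1 h5)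
    have h4 : (padicValNat q (z.num.natAbs * z.den) : ℤ) = padicValRat q z +
        2 * padicValRat q (z.den : ℚ) := by
      have h5 : padicValRat q (|z|) = padicValRat q z := by
        rcases abs_choice z with h6 | h6 <;> rw [h6]
        rw [padicValRat.neg]
      rw [← padicValRat.of_nat, hz2, padicValRat.mul (abs_ne_zero.2 hz) (pow_ne_zero _ hden0),
        padicValRat.pow, h5]
      rfl
    have h5 : ((2 : ℕ) : ℤ) ∣ (padicValNat q (z.num.natAbs * z.den) : ℤ) := by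
      rw [h4]
      exact dvd_add h3 (dvd_mul_right _ _)
    exact_mod_cast h5
  have hb0 : (b : ℚ) ≠ 0 := by
    intro h
    have : b = 0 := by exact_mod_cast h
    rw [this, zero_pow two_ne_zero, mul_zero] at hab
    exact hnd0 hab
  have habs : |z| * (z.den : ℚ) ^ 2 = a * b ^ 2 := by
    rw [← hz2, hab]
    push_cast
    ring
  have hsgn : ∃ ε : ℤ, (ε = 1 ∨ ε = -1) ∧ z * (z.den : ℚ) ^ 2 = ((ε * a : ℤ) : ℚ) * b ^ 2 := by
    rcases abs_choice z with h6 | h6
    · refine ⟨1, Or.inl rfl, ?_⟩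
      rw [h6] at habs
      rw [habs]
      push_cast
      ring
    · refine ⟨-1, Or.inr rfl, ?_⟩
      rw [h6] at habs
      have : z * (z.den : ℚ) ^ 2 = -(a * b ^ 2) := by rw [← habs]; ring
      rw [this]
      push_cast
      ring
  obtain ⟨ε, hε, hεz⟩ := hsgn
  have hbP : (b : ℚ_[2]) ≠ 0 := by exact_mod_cast (show b ≠ 0 by exact_mod_cast hb0)
  have hsq : (w * (z.den : ℚ_[2]) / b) ^ 2 = ((ε * a : ℤ) : ℚ_[2]) := by
    have h1 := congrArg (algebraMap ℚ ℚ_[2]) hεz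
    rw [map_mul, map_mul, ← hw, map_pow, map_pow, map_natCast, map_natCast, map_intCast] at h1
    rw [div_pow, mul_pow, h1, mul_div_assoc, div_self (pow_ne_zero _ hbP), mul_one]
  have hmod := sq_mod hsq
  have hone : ε = 1 ∧ a = 1 := by
    have hp' : (p : ZMod 8) = ((p % 8 : ℕ) : ZMod 8) := (ZMod.natCast_mod p 8).symm
    push_cast at hmod
    rcases hε with rfl | rfl <;> rcases ha with rfl | rfl | rfl | rfl <;>
      first
      | exact ⟨rfl, rfl⟩
      | (exfalso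
         push_cast at hmod
         rcases hp8 with h | h <;>
         · try rw [hp', h] at hmod
           revert hmod
           decide)
  refine ⟨b / z.den, ?_⟩
  rw [hone.1, hone.2] at hεz
  rw [div_pow, div_eq_iff (pow_ne_zero _ hden0), hεz]
  push_cast
  ring

end two

end Pool.Agent.Helper786_Rig
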