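import Pool.Agent.Helper786_Rig.Tw
import Pool.Agent.Y158.GR.Glue
import Pool.Agent.R925.L.Loc3
import Pool.Agent.R925.L.NF

/-!
# Rigidity for the sections of a superelliptic curve over a number field
-/

set_option autoImplicit false
set_option linter.all false

open Polynomial FF Pool.Agent.Y157.PS Pool.Agent.Y158.GR IsDedekindDomain NumberField

namespace Pool.Agent.Helper786_Rig

section good

variable {K κ : Type} [Field K] [NumberField K] [Field κ] [Algebra K κ]

/-- the branch points are integral and distinct at the primes of good reduction -/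
theorem good_of [IsAlgClosure K κ] {v : HeightOneSpectrum (𝓞 K)} (g : (𝓞 K)[X])
    (hlc : g.leadingCoeff ∉ v.asIdeal) (hs : (g.map (Ideal.Quotient.mk v.asIdeal)).Separable)
    {V : ValuationSubring κ} (hV : Above v V) {B : Finset κ}
    (hB : ∀ θ ∈ B, aeval θ (g.map (algebraMap (𝓞 K) K)) = 0) : Good V B := by
  classical
  haveI : IsAlgClosed κ := IsAlgClosure.isAlgClosed K
  obtain ⟨A, i1, i2, i3, i4, h1, h2, -, ⟨f, hf, -, hflc, hfs⟩, -, hAV⟩ :=
    Pool.Agent.R925.L.nf_data v 1 1 one_pos (by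
      rw [Nat.cast_one]
      intro h5
      exact v.isPrime.ne_top ((Ideal.eq_top_iff_one _).2 h5)) g hlc (by
      rw [expand_one]; exact hs) 1 0 (by rw [pow_zero, Ideal.one_eq_top]; trivial) (by
      rw [zero_add, pow_one]
      intro h5
      exact v.isPrime.ne_top ((Ideal.eq_top_iff_one _).2 h5))
  obtain ⟨h5, h6⟩ := hAV κ V (fun c hc => hV.ideal c hc)
  letI : Algebra A κ := ((algebraMap K κ).comp (algebraMap A K)).toAlgebra
  haveI : IsScalarTower A K κ := IsScalarTower.of_algebraMap_eq fun _ => rfl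
  have hlc0 : algebraMap A κ f.leadingCoeff ≠ 0 := (hflc.map (algebraMap A κ)).ne_zero
  have hP0 : f.map (algebraMap A κ) ≠ 0 := by
    intro h
    apply hlc0
    rw [← leadingCoeff_map_of_leadingCoeff_ne_zero _ hlc0, h, leadingCoeff_zero]
  rw [expand_one] at hfs
  obtain ⟨hnd, hdist⟩ := Pool.Agent.W623.SecC.roots_distinct V h5 h6 f hflc hfs
  have hroot : ∀ θ ∈ B, aeval θ f = 0 := by
    intro θ hθ
    rw [← hB θ hθ, ← hf, aeval_map_algebraMap]
  have hroots : ∀ θ ∈ B, θ ∈ (f.map (algebraMap A κ)).roots := by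
    intro θ hθ
    rw [mem_roots hP0, IsRoot.def, eval_map]
    exact hroot θ hθ
  exact ⟨fun e he => Pool.Agent.W308.SecC.root_mem V h5 _ hflc _ (hroot e he),
    fun e he e' he' hne => hdist e (hroots e he) e' (hroots e' he') hne⟩

/-- the radicals with valuation divisible by `ℓ` are fixed by inertia -/
theorem rad_fix [IsAlgClosure K κ] {ℓ : ℕ} (hℓ0 : 0 < ℓ) {v : HeightOneSpectrum (𝓞 K)}
    (hℓ : (ℓ : 𝓞 K) ∉ v.asIdeal) {V : ValuationSubring κ} (hV : Above v V) {δ : κ} {a t : K}
    (ha0 : a ≠ 0) (hδ : δ ^ ℓ = algebraMap K κ a) (ht : v.valuation K a = (v.valuation K t) ^ ℓ)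
    {σ : κ ≃ₐ[K] κ} (hσ : Ine V σ) : σ δ = δ := by
  haveI : IsAlgClosed κ := IsAlgClosure.isAlgClosed K
  haveI : CharZero κ := charZero_of_injective_algebraMap (algebraMap K κ).injective
  have hva : v.valuation K a ≠ 0 := (Valuation.ne_zero_iff _).2 ha0
  have ht0 : t ≠ 0 := by
    rintro rfl
    rw [map_zero, zero_pow hℓ0.ne'] at ht
    exact hva ht
  have hℓU : IsU V (ℓ : κ) := by
    rw [← map_natCast (algebraMap K κ) ℓ, hV.isU, ← map_natCast (algebraMap (𝓞 K) K) ℓ,
      v.valuation_of_algebraMap, v.intValuation_eq_one_iff]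
    exact hℓ
  have htκ : algebraMap K κ t ≠ 0 := (_root_.map_ne_zero _).2 ht0
  have hu : (δ / algebraMap K κ t) ^ ℓ = algebraMap K κ (a / t ^ ℓ) := by
    rw [div_pow, hδ, map_div₀, map_pow]
  have hU : IsU V (δ / algebraMap K κ t) := by
    apply Pool.Agent.Y157.PS.isU_of_pow hℓ0
    rw [hu, hV.isU, map_div₀, map_pow, ht, div_self]
    rw [← ht]
    exact hva
  have h1 := Pool.Agent.R925.L.ine_unit hℓ0 hℓU hσ hU ⟨_, hu⟩
  have h2 : δ = (δ / algebraMap K κ t) * algebraMap K κ t := by rw [div_mul_cancel₀ _ htκ]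
  rw [h2, map_mul, h1, σ.commutes]

end good

section split

variable {K κ : Type} [Field K] [CharZero K] [Field κ] [Algebra K κ]

/-- the field generated by the roots -/
theorem exists_spl [IsAlgClosed κ] [Algebra.IsAlgebraic K κ] (f : K[X]) {ℓ : ℕ}
    (hgal : IsPGroup ℓ f.Gal) :
    ∃ E : IntermediateField K κ, FiniteDimensional K E ∧ Normal K E ∧ IsPGroup ℓ (E ≃ₐ[K] E) ∧
      ∀ θ : κ, f ≠ 0 → aeval θ f = 0 → θ ∈ E := by
  have hsp : (f.map (algebraMap K κ)).Splits := IsAlgClosed.splits _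
  obtain ⟨E, hE⟩ : ∃ E : IntermediateField K κ, E = IntermediateField.adjoin K (f.rootSet κ) :=
    ⟨_, rfl⟩
  have hsf : f.IsSplittingField K E := by
    rw [hE]
    exact IntermediateField.adjoin_rootSet_isSplittingField hsp
  haveI := hsf
  refine ⟨E, IsSplittingField.finiteDimensional E f, Normal.of_isSplittingField f, ?_, ?_⟩
  · let e : E ≃ₐ[K] f.SplittingField := IsSplittingField.algEquiv E f
    let e' : (E ≃ₐ[K] E) ≃* f.Gal := AlgEquiv.autCongr e
    exact hgal.of_equiv e'.symm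
  · intro θ hf0 hθ
    rw [hE]
    exact IntermediateField.subset_adjoin K _ (mem_rootSet.2 ⟨hf0, hθ⟩)

end split

section main

variable {k F Ω : Type} [Field k] [CharZero k]
    [Field F] [Field Ω] [Algebra k F] [Algebra F Ω] [Algebra k Ω] [IsScalarTower k F Ω]
    [IsAlgClosed Ω] [Algebra.IsAlgebraic F Ω]

/-- the covering field of the curve `d y ^ ℓ = f(x)` -/
theorem geoSetup {ℓ : ℕ} [hℓ : Fact ℓ.Prime] (f : k[X]) (hs : f.Separable)
    (hdvd : ℓ ∣ f.natDegree) (h3 : 3 ≤ f.natDegree) (d : k)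
    {δ : algebraicClosure k Ω} (hδ0 : δ ≠ 0) (hδ : δ ^ ℓ = algebraMap k _ (d / f.leadingCoeff))
    (x y : F) (hx : Transcendental k x) (hxy : algebraMap k F d * y ^ ℓ = aeval x f)
    (hF : IntermediateField.adjoin k {x, y} = (⊤ : IntermediateField k F)) :
    ∃ (B : Finset (algebraicClosure k Ω)) (R M : Type) (_ : Field R) (_ : Field M)
      (_ : Algebra (algebraicClosure k Ω) R)
      (_ : Algebra R M) (_ : Algebra (algebraicClosure k Ω) M)
      (_ : IsScalarTower (algebraicClosure k Ω) R M) (x' : R) (Y : M)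
      (eqv : M ≃+* geomPro ℓ k F Ω),
      (∀ θ, θ ∈ B ↔ aeval θ f = 0) ∧ B.card = f.natDegree ∧ Cov ℓ (algebraicClosure k Ω) R M x' B Y ∧
      (∀ c : algebraicClosure k Ω, ((eqv (algebraMap (algebraicClosure k Ω) M c) :
        geomPro ℓ k F Ω) : Ω) = (c : Ω)) ∧
      ((eqv (algebraMap R M x') : geomPro ℓ k F Ω) : Ω) = algebraMap F Ω x ∧
      ((eqv Y : geomPro ℓ k F Ω) : Ω) = (δ : Ω) * algebraMap F Ω y := by
  classical
  have hac : IsAlgClosure k (algebraicClosure k Ω) := inferInstance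
  have hkb : IsAlgClosed (algebraicClosure k Ω) := hac.1
  have hf0 : f ≠ 0 := by rintro rfl; simp at h3
  have hlck0 : f.leadingCoeff ≠ 0 := leadingCoeff_ne_zero.2 hf0
  set P₀ := f.map (algebraMap k (algebraicClosure k Ω)) with hP
  have hnd : P₀.roots.Nodup := nodup_roots hs.map
  have hlc0 : algebraMap k (algebraicClosure k Ω) f.leadingCoeff ≠ 0 :=
    (_root_.map_ne_zero _).2 hlck0
  have hP0 : P₀ ≠ 0 := (Polynomial.map_ne_zero_iff (algebraMap k _).injective).2 hf0
  have hPdeg : P₀.natDegree = f.natDegree := natDegree_map_eq_of_injective (algebraMap k _).injective f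
  obtain ⟨B, hBdef⟩ : ∃ B : Finset (algebraicClosure k Ω), B = P₀.roots.toFinset := ⟨_, rfl⟩
  have hmemB : ∀ θ, θ ∈ B ↔ aeval θ f = 0 := by
    intro θ
    rw [hBdef, Multiset.mem_toFinset, mem_roots hP0, IsRoot.def, hP, eval_map]
    rfl
  have hcard : B.card = f.natDegree := by
    rw [hBdef, Multiset.toFinset_card_of_nodup hnd, ← hPdeg]
    exact (IsAlgClosed.splits P₀).natDegree_eq_card_roots.symm
  have hPx : ∀ z : Ω, P₀.eval₂ (algebraMap (algebraicClosure k Ω) Ω) z =
      algebraMap (algebraicClosure k Ω) Ω (algebraMap k (algebraicClosure k Ω) f.leadingCoeff) *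
        ∏ e ∈ B, (z - algebraMap (algebraicClosure k Ω) Ω e) := by
    intro z
    have h1 := (IsAlgClosed.splits P₀).eq_prod_roots
    have h5 : P₀.leadingCoeff = algebraMap k (algebraicClosure k Ω) f.leadingCoeff :=
      leadingCoeff_map_of_leadingCoeff_ne_zero _ hlc0
    rw [h5] at h1
    have h6 : ∏ e ∈ B, (z - algebraMap (algebraicClosure k Ω) Ω e) =
        (P₀.roots.map fun e => z - algebraMap (algebraicClosure k Ω) Ω e).prod := by
      rw [hBdef, Finset.prod, Multiset.toFinset_val, Multiset.dedup_eq_self.2 hnd]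
    rw [h6]
    conv_lhs => rw [h1]
    rw [eval₂_mul, eval₂_C, ← coe_eval₂RingHom, map_multiset_prod, Multiset.map_map]
    congr 2
    refine Multiset.map_congr rfl fun a _ => ?_
    simp
  have hfx : algebraMap F Ω (aeval x f) =
      P₀.eval₂ (algebraMap (algebraicClosure k Ω) Ω) (algebraMap F Ω x) := by
    have h1 : P₀.eval₂ (algebraMap (algebraicClosure k Ω) Ω) (algebraMap F Ω x) =
        aeval (algebraMap F Ω x) f := by
      rw [hP, eval₂_map, ← IsScalarTower.algebraMap_eq k (algebraicClosure k Ω) Ω, aeval_def]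
    rw [h1, aeval_algebraMap_apply]
  have hY : ((δ : Ω) * algebraMap F Ω y) ^ ℓ = ∏ e ∈ B, (algebraMap F Ω x - (e : Ω)) := by
    have h1 := congrArg (algebraMap F Ω) hxy
    rw [map_mul, map_pow, ← IsScalarTower.algebraMap_apply, hfx, hPx] at h1
    have h5 : algebraMap (algebraicClosure k Ω) Ω
        (algebraMap k (algebraicClosure k Ω) f.leadingCoeff) ≠ 0 := (_root_.map_ne_zero _).2 hlc0
    have h6 : (δ : Ω) ^ ℓ = algebraMap k Ω d / algebraMap (algebraicClosure k Ω) Ω
        (algebraMap k (algebraicClosure k Ω) f.leadingCoeff) := by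
      have h7 := congrArg (algebraMap (algebraicClosure k Ω) Ω) hδ
      rw [map_pow, map_div₀, map_div₀, ← IsScalarTower.algebraMap_apply] at h7
      exact h7
    rw [mul_pow, h6, div_mul_eq_mul_div, h1, mul_div_cancel_left₀ _ h5]
    rfl
  obtain ⟨R, M, i1, i2, i3, i4, i5, i6, x', Y, eqv, hC, h1, h2, h4⟩ :=
    glue B (by rw [hcard]; exact hdvd) (by rw [hcard]; exact h3) δ hδ0 x y hx hF hY
  exact ⟨B, R, M, i1, i2, i3, i4, i5, i6, x', Y, eqv, hmemB, hcard, hC, h1, h2, h4⟩

end main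

end Pool.Agent.Helper786_Rig
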