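import Pool.Agent.Y655.PS.Kum0
import Pool.Agent.Y705.PS.PROL
import Pool.Agent.Y158.GR.Rig

/-!
# Subgroups of a Galois group on which no character of order `ℓ` is trivial
-/

set_option autoImplicit false
set_option linter.all false

open Polynomial FF Pool.Agent.Y157.PS Pool.Agent.Y158.GR

namespace Pool.Agent.Helper786_Rig

section grp

variable {k κ : Type} [Field k] [Field κ] [Algebra k κ] {ℓ : ℕ}

/-- every continuous character of order dividing `ℓ` which is trivial on `H` is trivial -/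
def Gen (ℓ : ℕ) (H : Subgroup (κ ≃ₐ[k] κ)) : Prop :=
  ∀ χ : (κ ≃ₐ[k] κ) → κ, (∀ σ, χ σ ^ ℓ = 1) → (∀ σ τ, χ (σ * τ) = χ σ * χ τ) →
      (∃ E : IntermediateField k κ, FiniteDimensional k E ∧
        ∀ σ ∈ E.fixingSubgroup, χ σ = 1) → (∀ σ ∈ H, χ σ = 1) → ∀ σ, χ σ = 1

theorem Gen.mono {H H' : Subgroup (κ ≃ₐ[k] κ)} (h : Gen ℓ H) (hle : H ≤ H') : Gen ℓ H' :=
  fun χ h1 h2 h3 h4 => h χ h1 h2 h3 fun σ hσ => h4 σ (hle hσ)

variable [hℓ : Fact ℓ.Prime]

/-- the subgroup surjects onto the finite quotients of `ℓ`-power order -/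
theorem Gen.level {H : Subgroup (κ ≃ₐ[k] κ)} (hH : Gen ℓ H) {ζ : k} (hζ : IsPrimitiveRoot ζ ℓ)
    (hn : Normal k κ) (E : IntermediateField k κ) [FiniteDimensional k E] [Normal k E]
    (hE : IsPGroup ℓ (E ≃ₐ[k] E)) (σ : κ ≃ₐ[k] κ) : ∃ τ ∈ H, ∀ z ∈ E, τ z = σ z := by
  classical
  obtain ⟨res, hres⟩ : ∃ res : (κ ≃ₐ[k] κ) →* (E ≃ₐ[k] E), res = AlgEquiv.restrictNormalHom E :=
    ⟨_, rfl⟩
  have hresapp : ∀ (σ : κ ≃ₐ[k] κ) (x : E), ((res σ x : E) : κ) = σ x := fun σ x => by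
    rw [hres]
    exact AlgEquiv.restrictNormal_commutes σ E x
  have hsurj : Function.Surjective res := by
    rw [hres]
    exact AlgEquiv.restrictNormalHom_surjective κ
  have hfin : Finite (E ≃ₐ[k] E) := inferInstance
  have htop : H.map res = ⊤ := by
    rcases eq_top_or_exists_le_coatom (H.map res) with h | ⟨Q, hQ, hHQ⟩
    · exact h
    exfalso
    have hnil : Group.IsNilpotent (E ≃ₐ[k] E) := hE.isNilpotent
    have hQn : Q.Normal := Subgroup.NormalizerCondition.normal_of_coatom Q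
      (normalizerCondition_of_isNilpotent) hQ
    obtain ⟨m, hm⟩ := IsPGroup.iff_card.1 hE
    have hidx : ∃ j : ℕ, Nat.card ((E ≃ₐ[k] E) ⧸ Q) = ℓ ^ (j + 1) := by
      obtain ⟨j, -, hj⟩ := (Nat.dvd_prime_pow hℓ.out).1 (hm ▸ Q.index_dvd_card)
      have h1 : Nat.card ((E ≃ₐ[k] E) ⧸ Q) = ℓ ^ j := by rw [← hj]; rfl
      rcases Nat.eq_zero_or_pos j with h0 | h0
      · exfalso
        rw [h0, pow_zero] at hj
        exact hQ.1 (Subgroup.index_eq_one.1 hj)
      · exact ⟨j - 1, by rw [Nat.sub_add_cancel h0]; exact h1⟩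
    obtain ⟨j, hj⟩ := hidx
    obtain ⟨χ0, hχ0⟩ := Pool.Agent.Y705.PS.exists_char ℓ hj hζ
    obtain ⟨χ1, hχ1⟩ : ∃ χ1 : (κ ≃ₐ[k] κ) →* rootsOfUnity ℓ k,
        χ1 = χ0.comp ((QuotientGroup.mk' Q).comp res) := ⟨_, rfl⟩
    have hχ1s : Function.Surjective χ1 := by
      rw [hχ1]
      exact hχ0.comp ((QuotientGroup.mk'_surjective Q).comp hsurj)
    have hQ1 : ∀ σ, res σ ∈ Q → χ1 σ = 1 := by
      intro σ hσ
      rw [hχ1]
      change χ0 (QuotientGroup.mk' Q (res σ)) = 1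
      have h1 : QuotientGroup.mk' Q (res σ) = 1 := (QuotientGroup.eq_one_iff _).2 hσ
      rw [h1, map_one]
    have key := hH (fun σ => algebraMap k κ ((χ1 σ : kˣ) : k)) (by
        intro σ
        have h1 : ((χ1 σ : kˣ)) ^ ℓ = 1 := (χ1 σ).2
        have h2 : (((χ1 σ : kˣ)) : k) ^ ℓ = 1 := by
          rw [← Units.val_pow_eq_pow_val, h1, Units.val_one]
        rw [← map_pow, h2, map_one])
      (by
        intro σ τ
        rw [map_mul χ1, Subgroup.coe_mul, Units.val_mul, map_mul])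
      ⟨E, inferInstance, by
        intro σ hσ
        have h1 : res σ = 1 := by
          ext z
          rw [hresapp]
          exact (IntermediateField.mem_fixingSubgroup_iff _ _).1 hσ z z.2
        rw [hQ1 σ (by rw [h1]; exact one_mem Q)]
        simp⟩
      (by
        intro σ hσ
        have h2 : χ1 σ = 1 := hQ1 σ (hHQ ⟨σ, hσ, rfl⟩)
        change algebraMap k κ ((χ1 σ : kˣ) : k) = 1
        rw [h2]
        simp)
    have hζ' : IsPrimitiveRoot (hζ.isUnit hℓ.out.ne_zero).unit ℓ :=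
      IsPrimitiveRoot.coe_units_iff.1 (by rw [IsUnit.unit_spec]; exact hζ)
    obtain ⟨σ, hσ⟩ := hχ1s ⟨(hζ.isUnit hℓ.out.ne_zero).unit, hζ'.pow_eq_one⟩
    have h1 := key σ
    rw [hσ] at h1
    have h2 : ζ = 1 := by
      apply (algebraMap k κ).injective
      rw [map_one, ← h1]
      rfl
    rw [h2] at hζ
    exact hℓ.out.one_lt.ne' (hζ.unique IsPrimitiveRoot.one)
  have h1 : res σ ∈ H.map res := by rw [htop]; trivial
  obtain ⟨τ, hτ, h2⟩ := h1
  refine ⟨τ, hτ, fun z hz => ?_⟩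
  have h3 := hresapp τ ⟨z, hz⟩
  have h4 := hresapp σ ⟨z, hz⟩
  rw [h2, h4] at h3
  exact h3.symm

/-- restriction of scalars -/
def rsc (E : IntermediateField k κ) : (κ ≃ₐ[E] κ) →* (κ ≃ₐ[k] κ) where
  toFun σ := σ.restrictScalars k
  map_one' := rfl
  map_mul' _ _ := rfl

theorem rsc_apply (E : IntermediateField k κ) (σ : κ ≃ₐ[E] κ) (z : κ) : rsc E σ z = σ z := rfl

/-- elements which are fixed by `H` -/
theorem Gen.fix {H : Subgroup (κ ≃ₐ[k] κ)} (hH : Gen ℓ H) {ζ : k} (hζ : IsPrimitiveRoot ζ ℓ)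
    (hn : Normal k κ) (E : IntermediateField k κ) [FiniteDimensional k E] [Normal k E]
    (hE : IsPGroup ℓ (E ≃ₐ[k] E)) {e : κ} (he : e ∈ E) (hfix : ∀ τ ∈ H, τ e = e)
    (σ : κ ≃ₐ[k] κ) : σ e = e := by
  obtain ⟨τ, hτ, h⟩ := hH.level hζ hn E hE σ
  rw [← h e he, hfix τ hτ]

/-- the field generated by `ℓ`-th roots of elements of a field of `ℓ`-power degree -/
theorem pgroup_up {ζ : k} (hζ : IsPrimitiveRoot ζ ℓ)
    (hn : Normal k κ) (E : IntermediateField k κ) [FiniteDimensional k E] [Normal k E]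
    (hE : IsPGroup ℓ (E ≃ₐ[k] E)) {c : κ} (hc0 : c ≠ 0) (hc : c ^ ℓ ∈ E) :
    ∃ L : IntermediateField k κ, FiniteDimensional k L ∧ Normal k L ∧ IsPGroup ℓ (L ≃ₐ[k] L) ∧
      E ≤ L ∧ c ∈ L := by
  classical
  have hcint : IsIntegral k c := (hn.isIntegral c)
  haveI : FiniteDimensional k (IntermediateField.adjoin k {c}) :=
    IntermediateField.adjoin.finiteDimensional hcint
  obtain ⟨K₁, hK₁⟩ : ∃ K₁ : IntermediateField k κ, K₁ = E ⊔ IntermediateField.adjoin k {c} :=
    ⟨_, rfl⟩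
  haveI : FiniteDimensional k K₁ := by rw [hK₁]; infer_instance
  obtain ⟨L, hL⟩ : ∃ L : IntermediateField k κ, L = IntermediateField.normalClosure k K₁ κ :=
    ⟨_, rfl⟩
  have hKL : K₁ ≤ L := by rw [hL]; exact IntermediateField.le_normalClosure K₁
  have hLn : Normal k L := by rw [hL]; infer_instance
  have hLf : FiniteDimensional k L := by rw [hL]; infer_instance
  refine ⟨L, hLf, hLn, ?_, ?_, ?_⟩
  · intro g
    obtain ⟨σ, hσ⟩ := AlgEquiv.restrictNormalHom_surjective (F := k) (K₁ := L) κ g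
    have hresL : ∀ x : L, ((g x : L) : κ) = σ x := fun x => by
      rw [← hσ]
      exact AlgEquiv.restrictNormal_commutes σ L x
    obtain ⟨m, hm⟩ := hE (AlgEquiv.restrictNormalHom E σ)
    have hresE : ∀ x : E, ((AlgEquiv.restrictNormalHom E (σ ^ ℓ ^ m) x : E) : κ) = (σ ^ ℓ ^ m) x :=
      fun x => AlgEquiv.restrictNormal_commutes _ E x
    have hfixE : ∀ x ∈ E, (σ ^ ℓ ^ m) x = x := by
      intro x hx
      rw [← map_pow] at hm
      have h1 := hresE ⟨x, hx⟩
      rw [hm] at h1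
      exact h1.symm
    obtain ⟨ρ, hρ⟩ : ∃ ρ : κ ≃ₐ[k] κ, ρ = σ ^ ℓ ^ m := ⟨_, rfl⟩
    rw [← hρ] at hfixE
    -- radicals
    have hrad : ∀ w : κ, w ^ ℓ ∈ E → (ρ ^ ℓ) w = w := by
      intro w hw
      by_cases hw0 : w = 0
      · rw [hw0, map_zero]
      have h1 : (ρ w / w) ^ ℓ = 1 := by
        rw [div_pow, ← map_pow, hfixE _ hw, div_self (pow_ne_zero _ hw0)]
      haveI : NeZero ℓ := ⟨hℓ.out.ne_zero⟩
      have h2 : IsPrimitiveRoot (algebraMap k κ ζ) ℓ :=
        hζ.map_of_injective (algebraMap k κ).injective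
      obtain ⟨i, -, hi⟩ := h2.eq_pow_of_pow_eq_one h1
      have h3 : ρ w = algebraMap k κ (ζ ^ i) * w := by
        rw [map_pow, hi, div_mul_cancel₀ _ hw0]
      have h4 : ∀ j : ℕ, (ρ ^ j) w = algebraMap k κ ((ζ ^ i) ^ j) * w := by
        intro j
        induction j with
        | zero => rw [pow_zero, pow_zero, map_one, one_mul]; rfl
        | succ j ih =>
          rw [pow_succ', AlgEquiv.mul_apply, ih, map_mul, AlgEquiv.commutes, h3, pow_succ, map_mul]
          ring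
      rw [h4, ← pow_mul, mul_comm i ℓ, pow_mul, hζ.pow_eq_one, one_pow, map_one, one_mul]
    have hall : ∀ w ∈ L, (ρ ^ ℓ) w = w := by
      have hle : L ≤ IntermediateField.fixedField (Subgroup.zpowers (ρ ^ ℓ)) := by
        rw [hL, IntermediateField.normalClosure_def'']
        refine iSup_le fun τ => ?_
        rw [hK₁, IntermediateField.map_sup, IntermediateField.adjoin_map, Set.image_singleton,
          sup_le_iff]
        have hmem : ∀ w : κ, (ρ ^ ℓ) w = w → w ∈
            IntermediateField.fixedField (Subgroup.zpowers (ρ ^ ℓ)) := by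
          intro w hw
          rw [IntermediateField.mem_fixedField_iff]
          intro g hg
          obtain ⟨j, rfl⟩ := Subgroup.mem_zpowers_iff.1 hg
          have h5 : (ρ ^ ℓ) ∈ MulAction.stabilizer (κ ≃ₐ[k] κ) w := hw
          exact (zpow_mem h5 j : _)
        constructor
        · intro w hw
          apply hmem
          have hwE : w ∈ E :=
            (IntermediateField.normal_iff_forall_map_le'.1 (inferInstance : Normal k E)) τ hw
          exact hrad w (pow_mem hwE ℓ)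
        · rw [IntermediateField.adjoin_le_iff, Set.singleton_subset_iff]
          apply hmem
          apply hrad
          have h6 : (τ : κ →ₐ[k] κ) c ^ ℓ = τ (c ^ ℓ) := (map_pow τ c ℓ).symm
          change (τ c) ^ ℓ ∈ E
          rw [← map_pow]
          exact (IntermediateField.normal_iff_forall_map_le'.1 (inferInstance : Normal k E)) τ
            ⟨_, hc, rfl⟩
      intro w hw
      have h5 := hle hw
      rw [IntermediateField.mem_fixedField_iff] at h5
      exact h5 _ (Subgroup.mem_zpowers _)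
    refine ⟨m + 1, ?_⟩
    ext x
    have hgpow : ∀ j : ℕ, ∀ x : L, (((g ^ j) x : L) : κ) = (σ ^ j) x := by
      intro j
      induction j with
      | zero => intro x; rfl
      | succ j ih =>
        intro x
        rw [pow_succ', pow_succ', AlgEquiv.mul_apply, hresL, ih]
        rfl
    rw [hgpow, pow_succ, pow_mul, ← hρ, hall x x.2]
    rfl
  · exact le_trans (by rw [hK₁]; exact le_sup_left) hKL
  · apply hKL
    rw [hK₁]
    exact (le_sup_right : _ ≤ E ⊔ IntermediateField.adjoin k {c})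
      (IntermediateField.mem_adjoin_simple_self k c)

/-- the property passes to the subfields of `ℓ`-power degree -/
theorem Gen.up [CharZero k] {H : Subgroup (κ ≃ₐ[k] κ)} (hH : Gen ℓ H) {ζ : k}
    (hζ : IsPrimitiveRoot ζ ℓ) (hn : Normal k κ) (E : IntermediateField k κ)
    [FiniteDimensional k E] [Normal k E] (hE : IsPGroup ℓ (E ≃ₐ[k] E)) :
    Gen (k := E) ℓ (H.comap (rsc E)) := by
  classical
  haveI : NeZero ℓ := ⟨hℓ.out.ne_zero⟩
  haveI hgal : IsGalois k κ := ⟨⟩
  haveI : IsGalois E κ := inferInstance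
  intro χ h1 h2 h3 h4
  obtain ⟨E', hE', hE'χ⟩ := h3
  have hprim : IsPrimitiveRoot (algebraMap k κ ζ) ℓ :=
    hζ.map_of_injective (algebraMap k κ).injective
  have hrou : ∀ (w : κ), w ^ ℓ = 1 → ∃ z : k, algebraMap k κ z = w := by
    intro w hw
    obtain ⟨i, -, hi⟩ := hprim.eq_pow_of_pow_eq_one hw
    exact ⟨ζ ^ i, by rw [map_pow, hi]⟩
  obtain ⟨c, hc, hcχ⟩ := Pool.Agent.Y655.PS.resolvent (⊤ : Subgroup (κ ≃ₐ[E] κ)) χ
    (fun σ _ h => by
      have := h1 σ
      rw [h, zero_pow hℓ.out.ne_zero] at this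
      exact zero_ne_one this)
    (fun σ _ σ' _ => h2 σ σ') (fun σ _ σ' _ => by
      obtain ⟨z, hz⟩ := hrou _ (h1 σ')
      rw [← hz, IsScalarTower.algebraMap_apply k E κ, AlgEquiv.commutes]) E'
    (fun σ h _ => hE'χ σ h)
  have hcE : c ^ ℓ ∈ E := by
    have h5 : c ^ ℓ ∈ (⊥ : IntermediateField E κ) := by
      rw [InfiniteGalois.mem_bot_iff_fixed]
      intro σ
      rw [map_pow, hcχ σ trivial, mul_pow, h1, one_mul]
    obtain ⟨a, ha⟩ := IntermediateField.mem_bot.1 h5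
    rw [← ha]
    exact a.2
  obtain ⟨L, hLf, hLn, hLp, hEL, hcL⟩ := pgroup_up hζ hn E hE hc hcE
  intro σ
  obtain ⟨τ, hτ, hτσ⟩ := hH.level hζ hn L hLp (rsc E σ)
  -- `τ` fixes `E`
  let τE : κ ≃ₐ[E] κ := AlgEquiv.ofRingEquiv (f := (τ : κ ≃+* κ)) (by
    intro z
    change τ (z : κ) = z
    rw [hτσ _ (hEL z.2), rsc_apply]
    exact σ.commutes z)
  have hτE : rsc E τE = τ := by
    ext z
    rfl
  have h5 := h4 τE (by rw [Subgroup.mem_comap, hτE]; exact hτ)
  have h6 := hcχ τE trivial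
  have h7 := hcχ σ trivial
  have h8 : τE c = σ c := by
    change τ c = σ c
    rw [hτσ c hcL, rsc_apply]
  rw [h8, h7, h5, one_mul] at h6
  exact mul_right_cancel₀ hc (h6.trans (one_mul c).symm)

end grp

end Pool.Agent.Helper786_Rig
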