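import Pool.Agent.Helper786_Rig.Geo

/-!
# Sections given by a rational point at one place
-/

set_option autoImplicit false
set_option linter.all false

open Polynomial FF Pool.Agent.Y157.PS Pool.Agent.Y158.GR IsDedekindDomain NumberField

namespace Pool.Agent.Helper786_Rig

section tw

variable {ℓ : ℕ} [hℓ : Fact ℓ.Prime] {κ R M : Type} [Field κ] [IsAlgClosed κ] [CharZero κ]
  [Field R] [Field M] [Algebra κ R] [Algebra R M] [Algebra κ M] [IsScalarTower κ R M] {x : R}
  {B : Finset κ} {Y : M}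

theorem non_pow_mem {M : Type} [Field M] {V : ValuationSubring M} {z : M} {n : ℕ} (hn : n ≠ 0)
    (h : z ∈ V.nonunits) : z ^ n ∈ V.nonunits := by
  obtain ⟨m, rfl⟩ := Nat.exists_eq_succ_of_ne_zero hn
  rw [pow_succ]
  exact non_mul (pow_mem (nonunits_iff.1 h).1 m) h

theorem one_not_non {M : Type} [Field M] {V : ValuationSubring M} : (1 : M) ∉ V.nonunits := by
  intro h
  rcases (nonunits_iff.1 h).2 with h1 | h1
  · exact one_ne_zero h1
  · rw [inv_one] at h1
    exact h1 (one_mem _)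

theorem sub_ne0 (hC : Cov ℓ κ R M x B Y) (e : κ) : algebraMap R M x - algebraMap κ M e ≠ 0 := by
  intro h
  apply trXM hC
  rw [sub_eq_zero.1 h]
  exact isAlgebraic_algebraMap _

theorem x_ne0 (hC : Cov ℓ κ R M x B Y) : algebraMap R M x ≠ 0 := by
  intro h
  apply trXM hC
  rw [h]
  exact isAlgebraic_zero

/-- elements which behave like `Y` are not constant -/
theorem nonconst (hC : Cov ℓ κ R M x B Y) (hrot : ∃ V, HasRot κ R M x B Y V) {Z : M} (hZ0 : Z ≠ 0)
    (hZ : ∀ (γ : M ≃ₐ[R] M) (ξ : κ), γ Y = algebraMap κ M ξ * Y → γ Z = algebraMap κ M ξ * Z) :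
    Z ∉ Set.range (algebraMap κ M) := by
  rintro ⟨c, rfl⟩
  obtain ⟨V, hV⟩ := hrot
  have hBne : B.Nonempty := by
    rw [← Finset.card_pos]
    have := hC.three
    omega
  obtain ⟨e, he⟩ := hBne
  obtain ⟨O, γ, W₀, -, -, -, -, hcY⟩ := hV e he
  obtain ⟨ξ, hξ, hγY⟩ := hC.actY (Y_ne0 hC) γ
  have h1 := hZ γ ξ hγY
  rw [Pool.Agent.Y748.PS.gal_const] at h1
  apply hcY
  have h2 : algebraMap κ M ξ = 1 := (mul_right_cancel₀ hZ0 (by rw [one_mul, ← h1])).symm
  rw [hγY, h2, one_mul]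

/-- a product in the maximal ideal -/
theorem prod_non {M : Type} [Field M] {V : ValuationSubring M} {ι : Type} (s : Finset ι) (f : ι → M)
    (h : ∏ i ∈ s, f i ∈ V.nonunits) (hf : ∀ i ∈ s, f i ∈ V) : ∃ i ∈ s, f i ∈ V.nonunits := by
  classical
  by_contra hno
  push Not at hno
  have h1 : ∀ i ∈ s, (f i)⁻¹ ∈ V := fun i hi => inv_mem_of_not_nonunit (hno i hi)
  have h2 : (∏ i ∈ s, f i)⁻¹ ∈ V := by
    rw [← Finset.prod_inv_distrib]
    exact prod_mem h1
  rcases (nonunits_iff.1 h).2 with h3 | h3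
  · obtain ⟨i, hi, h4⟩ := Finset.prod_eq_zero_iff.1 h3
    apply hno i hi
    rw [h4]
    exact nonunits_iff.2 ⟨zero_mem _, Or.inl rfl⟩
  · exact h3 h2

/-- a product of elements congruent to one -/
theorem prod_one {M : Type} [Field M] {V : ValuationSubring M} {ι : Type} (s : Finset ι) (f : ι → M)
    (hf : ∀ i ∈ s, f i - 1 ∈ V.nonunits) : ∏ i ∈ s, f i - 1 ∈ V.nonunits := by
  classical
  induction s using Finset.induction_on with
  | empty =>
    rw [Finset.prod_empty, sub_self]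
    exact nonunits_iff.2 ⟨zero_mem _, Or.inl rfl⟩
  | insert a s ha ih =>
    rw [Finset.prod_insert ha]
    have h1 := ih fun i hi => hf i (Finset.mem_insert_of_mem hi)
    have h2 := hf a (Finset.mem_insert_self a s)
    have h3 : f a ∈ V := by
      have := V.add_mem _ _ (nonunits_iff.1 h2).1 (one_mem _)
      rwa [sub_add_cancel] at this
    have h4 : f a * ∏ i ∈ s, f i - 1 = f a * (∏ i ∈ s, f i - 1) + (f a - 1) := by ring
    rw [h4]
    exact non_add (non_mul h3 h1) h2

variable {k : Type} [Field k] [Algebra k κ]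

/-- a place above a rational point is conjugate to its images under a section -/
theorem gam_pt (hC : Cov ℓ κ R M x B Y) (hrot : ∃ V, HasRot κ R M x B Y V) {m : ℕ}
    (hm : B.card = ℓ * m) {δ : κ} (hδ0 : δ ≠ 0) {s : (κ ≃ₐ[k] κ) →* RingAut M}
    (hs : Sec k κ R M x Y δ s) (W : Place κ M)
    (h : (∃ a b : k, 0 < W.ord (algebraMap R M x - algebraMap κ M (algebraMap k κ a)) ∧
        algebraMap κ M δ⁻¹ * Y - algebraMap κ M (algebraMap k κ b) ∈ W.O.nonunits) ∨
      (W.ord (algebraMap R M x) < 0 ∧ ∃ b : k, algebraMap κ M δ⁻¹ * Y / algebraMap R M x ^ m -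
        algebraMap κ M (algebraMap k κ b) ∈ W.O.nonunits)) (σ : κ ≃ₐ[k] κ) :
    ∃ γ : M ≃ₐ[R] M, γ Y = Y ∧ ∀ z, W.ord (γ (s σ z)) = W.ord z := by
  have hx0 := x_ne0 hC
  have hδM : algebraMap κ M δ ≠ 0 := (_root_.map_ne_zero _).2 hδ0
  have hY0 := Y_ne0 hC
  have hδδ : ∀ z : M, algebraMap κ M δ * (algebraMap κ M δ⁻¹ * z) = z := fun z => by
    rw [← mul_assoc, ← map_mul, mul_inv_cancel₀ hδ0, map_one, one_mul]
  have hord : ∀ (Z : M) (c : κ), Z ∉ Set.range (algebraMap κ M) →
      Z - algebraMap κ M c ∈ W.O.nonunits → 0 < W.ord (Z - algebraMap κ M c) := by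
    intro Z c hZ h1
    refine (O_non_iff W ?_).1 h1
    intro h2
    exact hZ ⟨c, (sub_eq_zero.1 h2).symm⟩
  have hval2 : ∀ (b : k) (z : M), algebraMap κ M δ⁻¹ * z - algebraMap κ M (algebraMap k κ b) ∈
      W.O.nonunits → z - algebraMap κ M (δ * algebraMap k κ b) ∈ W.O.nonunits := by
    intro b z h1
    have h2 : z - algebraMap κ M (δ * algebraMap k κ b) = algebraMap κ M δ *
        (algebraMap κ M δ⁻¹ * z - algebraMap κ M (algebraMap k κ b)) := by
      rw [mul_sub, hδδ, map_mul]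
    rw [h2]
    exact non_mul (W.reg_const δ) h1
  have hcσ : ∀ (b : k) (σ : κ ≃ₐ[k] κ), σ (δ * algebraMap k κ b) =
      σ δ / δ * (δ * algebraMap k κ b) := by
    intro b σ
    rw [map_mul, σ.commutes, ← mul_assoc, div_mul_cancel₀ _ hδ0]
  rcases h with ⟨a, b, h1, h2⟩ | ⟨h1, b, h2⟩
  · refine exists_gam_of_val hC hδ0 hs W (Or.inl ⟨_, fun σ => σ.commutes a, h1⟩) ?_ σ
    by_cases hb : b = 0
    · left
      rw [hb, map_zero, map_zero, sub_zero] at h2
      have h3 : Y ∈ W.O.nonunits := by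
        rw [← hδδ Y]
        exact non_mul (W.reg_const δ) h2
      have h4 : ∏ e ∈ B, (algebraMap R M x - algebraMap κ M e) ∈ W.O.nonunits := by
        have h5 := hC.eqn
        rw [← h5]
        exact non_pow_mem hℓ.out.ne_zero h3
      have hxO : algebraMap R M x ∈ W.O := by
        have h5 := W.O.add_mem _ _ (nonunits_iff.1 (pos_non h1)).1 (W.reg_const (algebraMap k κ a))
        rwa [sub_add_cancel] at h5
      obtain ⟨e, he, h5⟩ := prod_non B _ h4 fun e _ => sub_mem hxO (W.reg_const e)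
      obtain ⟨V, hV⟩ := hrot
      exact exists_rot' hC hV W he ((O_non_iff W (sub_ne0 hC e)).1 h5)
    · right
      refine ⟨Y, δ * algebraMap k κ b, mul_ne_zero hδ0 ((_root_.map_ne_zero _).2 hb),
        fun γ ξ h => h, hs.fixy, hcσ b, hord _ _ ?_ (hval2 b Y h2)⟩
      exact nonconst hC hrot hY0 fun γ ξ h => h
  · refine exists_gam_of_val hC hδ0 hs W (Or.inr h1) (Or.inr ?_) σ
    have hxm : algebraMap R M x ^ m ≠ 0 := pow_ne_zero _ hx0
    have hZs : ∀ (γ : M ≃ₐ[R] M) (ξ : κ), γ Y = algebraMap κ M ξ * Y →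
        γ (Y / algebraMap R M x ^ m) = algebraMap κ M ξ * (Y / algebraMap R M x ^ m) := by
      intro γ ξ hγ
      rw [map_div₀, hγ, map_pow, AlgEquiv.commutes, mul_div_assoc]
    have h3 : Y / algebraMap R M x ^ m - algebraMap κ M (δ * algebraMap k κ b) ∈ W.O.nonunits := by
      apply hval2
      rw [← mul_div_assoc]
      exact h2
    -- the value is not zero
    have hxi : (algebraMap R M x)⁻¹ ∈ W.O.nonunits := by
      refine (O_non_iff W (inv_ne_zero hx0)).2 ?_
      rw [W.ord_inv]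
      omega
    have h4 : (Y / algebraMap R M x ^ m) ^ ℓ - 1 ∈ W.O.nonunits := by
      have h5 : (Y / algebraMap R M x ^ m) ^ ℓ =
          ∏ e ∈ B, ((algebraMap R M x - algebraMap κ M e) * (algebraMap R M x)⁻¹) := by
        rw [Finset.prod_mul_distrib, Finset.prod_const, hm, div_pow, hC.eqn, ← pow_mul, mul_comm m,
          inv_pow, div_eq_mul_inv]
      rw [h5]
      refine prod_one _ _ fun e _ => ?_
      have h6 : (algebraMap R M x - algebraMap κ M e) * (algebraMap R M x)⁻¹ - 1 =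
          algebraMap κ M (-e) * (algebraMap R M x)⁻¹ := by
        rw [sub_mul, mul_inv_cancel₀ hx0, map_neg]
        ring
      rw [h6]
      exact non_mul (W.reg_const _) hxi
    have hb : b ≠ 0 := by
      rintro rfl
      rw [map_zero, mul_zero, map_zero, sub_zero] at h3
      have h5 := non_sub (non_pow_mem hℓ.out.ne_zero h3) h4
      rw [sub_sub_cancel] at h5
      exact one_not_non h5
    refine ⟨Y / algebraMap R M x ^ m, δ * algebraMap k κ b,
      mul_ne_zero hδ0 ((_root_.map_ne_zero _).2 hb), hZs, fun σ => ?_, hcσ b,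
      hord _ _ (nonconst hC hrot (div_ne_zero hY0 hxm) hZs) h3⟩
    rw [map_div₀, hs.fixy, map_pow, hs.fixx, mul_div_assoc]

end tw

end Pool.Agent.Helper786_Rig
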