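import Pool.Agent.Helper786_Rig.Grp
import Pool.Agent.Y158.GR.Prb
import Pool.Agent.Y158.GR.NumV
import Pool.Agent.Y158.GR.Glb

/-!
# Rigidity of sections: branch points which are permuted by a group of `ℓ`-power order
-/

set_option autoImplicit false
set_option linter.all false

open Polynomial FF Pool.Agent.Y157.PS Pool.Agent.Y158.GR IsDedekindDomain NumberField

namespace Pool.Agent.Helper786_Rig

section rigid

variable {ℓ : ℕ} [hℓ : Fact ℓ.Prime] {κ R M : Type} [Field κ] [IsAlgClosed κ] [CharZero κ]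
  [Field R] [Field M] [Algebra κ R] [Algebra R M] [Algebra κ M] [IsScalarTower κ R M] {x : R}
  {B : Finset κ} {Y : M} {k : Type} [Field k] [CharZero k] [Algebra k κ]

/-- the action restricted to a subgroup -/
theorem act_rsc (E : IntermediateField k κ) [FiniteDimensional k E]
    {s : (κ ≃ₐ[k] κ) →* RingAut M} (hs : Act k κ R M x s) :
    Act E κ R M x (s.comp (rsc E)) := by
  refine ⟨fun σ c => hs.const _ c, fun σ => hs.fixx _, fun z => ?_⟩
  obtain ⟨E₀, hE₀, h⟩ := hs.cont z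
  haveI := hE₀
  obtain ⟨T, hT⟩ := IntermediateField.fg_of_fg_toSubalgebra E₀
    (Subalgebra.fg_of_fg_toSubmodule (Module.Finite.iff_fg.1 (inferInstance : Module.Finite k E₀)))
  haveI : Algebra.IsAlgebraic k E₀ := inferInstance
  have hint : ∀ w ∈ T, IsIntegral E w := by
    intro w hw
    have h1 : w ∈ E₀ := by rw [← hT]; exact IntermediateField.subset_adjoin k _ hw
    have h2 : IsIntegral k (⟨w, h1⟩ : E₀) := Algebra.IsIntegral.isIntegral _
    have h3 : IsIntegral k w := h2.map E₀.val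
    exact h3.tower_top
  refine ⟨IntermediateField.adjoin E (T : Set κ), ?_, fun σ hσ => ?_⟩
  · exact IntermediateField.finiteDimensional_adjoin fun w hw => hint w hw
  · apply h
    rw [IntermediateField.mem_fixingSubgroup_iff] at hσ ⊢
    intro w hw
    rw [← hT] at hw
    have hle : IntermediateField.adjoin k (T : Set κ) ≤
        (IntermediateField.adjoin E (T : Set κ)).restrictScalars k := by
      rw [IntermediateField.adjoin_le_iff]
      intro z hz
      exact IntermediateField.subset_adjoin E _ hz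
    exact hσ w (hle hw)

/-- **rigidity**, where the branch points are permuted by a group of `ℓ`-power order -/
theorem rigid' (hn : Normal k κ) (hC : Cov ℓ κ R M x B Y)
    (E : IntermediateField k κ) [FiniteDimensional k E] [Normal k E]
    (hE : IsPGroup ℓ (E ≃ₐ[k] E)) (hB : ∀ e ∈ B, e ∈ E) {ζ : k} (hζ : IsPrimitiveRoot ζ ℓ)
    {s t : (κ ≃ₐ[k] κ) →* RingAut M} (hs : Act k κ R M x s) (ht : Act k κ R M x t)
    {H : Subgroup (κ ≃ₐ[k] κ)} (hH : Gen ℓ H) (hst : ∀ σ ∈ H, s σ = t σ) : s = t := by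
  classical
  haveI : NeZero ℓ := ⟨hℓ.out.ne_zero⟩
  have hprim : IsPrimitiveRoot (algebraMap k κ ζ) ℓ :=
    hζ.map_of_injective (algebraMap k κ).injective
  have hle : H ≤ s.eqLocus t := fun σ hσ => hst σ hσ
  have hH' : Gen ℓ (s.eqLocus t) := hH.mono hle
  haveI : CharZero E := charZero_of_injective_algebraMap (algebraMap k E).injective
  have hkE : Algebra.IsAlgebraic k κ := inferInstance
  have hEκ : Algebra.IsAlgebraic E κ := Algebra.IsAlgebraic.tower_top (K := k) E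
  have hup := hH'.up hζ hn E hE
  have h1 : s.comp (rsc E) = t.comp (rsc E) := by
    refine rigid (k := E) hEκ hC (fun σ e he => ?_) (fun σ c hc => ?_) (act_rsc E hs)
      (act_rsc E ht) fun χ h1 h2 h3 h4 => hup χ h1 h2 h3 fun σ hσ => h4 σ hσ
    · exact σ.commutes ⟨e, hB e he⟩
    · obtain ⟨i, -, hi⟩ := hprim.eq_pow_of_pow_eq_one hc
      rw [← hi, ← map_pow, IsScalarTower.algebraMap_apply k E κ, AlgEquiv.commutes]
  ext1 σ
  obtain ⟨τ, hτ, hτσ⟩ := hH'.level hζ hn E hE σ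
  let ρ : κ ≃ₐ[E] κ := AlgEquiv.ofRingEquiv (f := ((τ⁻¹ * σ : κ ≃ₐ[k] κ) : κ ≃+* κ)) (by
    intro z
    change τ⁻¹ (σ (z : κ)) = z
    rw [← hτσ z z.2]
    exact τ.symm_apply_apply _)
  have hρ : rsc E ρ = τ⁻¹ * σ := by
    ext z
    rfl
  have h2 : s (τ⁻¹ * σ) = t (τ⁻¹ * σ) := by
    rw [← hρ]
    exact DFunLike.congr_fun h1 ρ
  have h3 : σ = τ * (τ⁻¹ * σ) := by group
  have h4 : s τ = t τ := hτ
  calc s σ = s τ * s (τ⁻¹ * σ) := by rw [← map_mul, ← h3]
    _ = t τ * t (τ⁻¹ * σ) := by rw [h4, h2]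
    _ = t σ := by rw [← map_mul, ← h3]

end rigid

section num

variable {K κ : Type} [Field K] [NumberField K] [Field κ] [Algebra K κ] [IsAlgClosure K κ] {ℓ : ℕ}
  [hp : Fact ℓ.Prime]

/-- at the places outside `S` an element has a valuation divisible by `ℓ` -/
def DvdOutside (ℓ : ℕ) (S : Set (HeightOneSpectrum (𝓞 K))) (z : K) : Prop :=
  ∀ v : HeightOneSpectrum (𝓞 K), v ∉ S → ∃ t : K, v.valuation K z = (v.valuation K t) ^ ℓ

/-- the number theoretic condition: an element which is an `ℓ`-th power over `L` and whose valuations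
are divisible by `ℓ` outside `S` is an `ℓ`-th power -/
def LocPow (ℓ : ℕ) (S : Set (HeightOneSpectrum (𝓞 K))) (L : Type) [Field L] [Algebra K L] : Prop :=
  ∀ z : K, z ≠ 0 → DvdOutside ℓ S z → (∃ w : L, w ^ ℓ = algebraMap K L z) → ∃ b : K, b ^ ℓ = z

variable {L C : Type} [Field L] [Field C] [Algebra K L] [Algebra L C] [Algebra K C]
  [IsScalarTower K L C] [CharZero L] [IsAlgClosure L C]

/-- characters which are unramified outside `S` and trivial over `L` -/
theorem gen_of_locPow {ζ : K} (hζ : IsPrimitiveRoot ζ ℓ) {S : Set (HeightOneSpectrum (𝓞 K))}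
    (hS : ∀ v, v ∉ S → (ℓ : 𝓞 K) ∉ v.asIdeal) (hL : LocPow ℓ S L) (ι : κ →ₐ[K] C)
    {H : Subgroup (κ ≃ₐ[K] κ)}
    (hI : ∀ v : HeightOneSpectrum (𝓞 K), v ∉ S →
      ∃ V : ValuationSubring κ, Above v V ∧ ∀ σ, Ine V σ → σ ∈ H)
    (hD : ∀ σ, DecL L ι σ → σ ∈ H) : Gen ℓ H := by
  have : Algebra.IsAlgebraic K κ := IsAlgClosure.isAlgebraic
  have : IsAlgClosed κ := IsAlgClosure.isAlgClosed K
  have hn : Normal K κ := IsAlgClosure.normal K κ
  have : IsGalois K κ := IsGalois.mk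
  have hℓ0 : ℓ ≠ 0 := hp.out.ne_zero
  haveI : NeZero ℓ := ⟨hℓ0⟩
  have hprim : IsPrimitiveRoot (algebraMap K κ ζ) ℓ :=
    hζ.map_of_injective (algebraMap K κ).injective
  intro χ hχ1 hχ2 hχ3 hχ4
  obtain ⟨E, hE, hEχ⟩ := hχ3
  obtain ⟨c, hc, hcχ⟩ := Pool.Agent.Y655.PS.resolvent (⊤ : Subgroup (κ ≃ₐ[K] κ)) χ
    (fun σ _ h => by
      have := hχ1 σ
      rw [h, zero_pow hℓ0] at this
      exact zero_ne_one this)
    (fun σ _ σ' _ => hχ2 σ σ') (fun σ _ σ' _ => by
      obtain ⟨i, -, hi⟩ := hprim.eq_pow_of_pow_eq_one (hχ1 σ')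
      rw [← hi, map_pow, σ.commutes]) E (fun σ h _ => hEχ σ h)
  have hcχ' : ∀ σ, σ c = χ σ * c := fun σ => hcχ σ trivial
  obtain ⟨a, ha⟩ : ∃ a : K, algebraMap K κ a = c ^ ℓ := by
    have h1 : c ^ ℓ ∈ (⊥ : IntermediateField K κ) := by
      rw [InfiniteGalois.mem_bot_iff_fixed]
      intro σ
      rw [map_pow, hcχ', mul_pow, hχ1, one_mul]
    exact IntermediateField.mem_bot.1 h1
  have ha0 : a ≠ 0 := by
    rintro rfl
    rw [map_zero] at ha
    exact pow_ne_zero ℓ hc ha.symm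
  obtain ⟨w, hw⟩ := locfix (L := L) ι (c := c) (fun σ hσ => by
    rw [hcχ', hχ4 σ (hD σ hσ), one_mul])
  have hwa : w ^ ℓ = algebraMap K L a := by
    apply (algebraMap L C).injective
    rw [map_pow, hw, ← map_pow, ← ha, ι.commutes, IsScalarTower.algebraMap_apply K L C]
  obtain ⟨b, hb⟩ := hL a ha0 (fun v hv => by
    obtain ⟨V, hV, hVH⟩ := hI v hv
    exact hV.pow (hS v hv) hc (fun σ hσ => by rw [hcχ', hχ4 σ (hVH σ hσ), one_mul]) ha) ⟨w, hwa⟩
  have hb0 : algebraMap K κ b ≠ 0 := by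
    intro h
    apply hc
    have h1 : c ^ ℓ = 0 := by rw [← ha, ← hb, map_pow, h, zero_pow hℓ0]
    exact pow_eq_zero_iff hℓ0 |>.1 h1
  have h1 : (c / algebraMap K κ b) ^ ℓ = 1 := by
    rw [div_pow, ← map_pow, hb, ha, div_self (pow_ne_zero _ hc)]
  obtain ⟨i, -, hi⟩ := hprim.eq_pow_of_pow_eq_one h1
  have h2 : algebraMap K κ (ζ ^ i * b) = c := by
    rw [map_mul, map_pow, hi, div_mul_cancel₀ _ hb0]
  intro σ
  have h3 := hcχ' σ
  rw [← h2, σ.commutes, h2] at h3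
  exact (mul_right_cancel₀ hc (by rw [one_mul, ← h3])).symm

variable {R M : Type} [Field R] [Field M] [Algebra κ R] [Algebra R M] [Algebra κ M]
  [IsScalarTower κ R M] {x : R} {B : Finset κ} {Y : M}

/-- **sections are determined at one place** -/
theorem numRig {ζ : K} (hζ : IsPrimitiveRoot ζ ℓ) {S : Set (HeightOneSpectrum (𝓞 K))}
    (hS : ∀ v, v ∉ S → (ℓ : 𝓞 K) ∉ v.asIdeal) (hL : LocPow ℓ S L) (ι : κ →ₐ[K] C)
    (hC : Cov ℓ κ R M x B Y) (E : IntermediateField K κ) [FiniteDimensional K E] [Normal K E]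
    (hE : IsPGroup ℓ (E ≃ₐ[K] E)) (hB : ∀ e ∈ B, e ∈ E)
    (hgood : ∀ v, v ∉ S → ∀ V : ValuationSubring κ, Above v V → Good V B) {δ : κ} (hδ0 : δ ≠ 0)
    (hδ : ∀ v, v ∉ S → ∀ V : ValuationSubring κ, Above v V →
      ∀ σ : κ ≃ₐ[K] κ, Ine V σ → σ δ = δ)
    {s t : (κ ≃ₐ[K] κ) →* RingAut M} (hs : Sec K κ R M x Y δ s) (ht : Sec K κ R M x Y δ t)
    (hst : ∀ σ, DecL L ι σ → s σ = t σ) : s = t := by
  haveI : IsAlgClosed κ := IsAlgClosure.isAlgClosed K
  haveI : CharZero κ := charZero_of_injective_algebraMap (algebraMap K κ).injective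
  have hn : Normal K κ := IsAlgClosure.normal K κ
  have hgen : Gen ℓ (s.eqLocus t) := by
    refine gen_of_locPow hζ hS hL ι (fun v hv => ?_) fun σ hσ => hst σ hσ
    obtain ⟨V, hV⟩ := exists_above (K := K) κ v
    obtain ⟨hl, -, O, hO, hu, hI⟩ := hV.wgt (hS v hv) hC (hgood v hv V hV)
    refine ⟨V, hV, fun σ hσ => ?_⟩
    exact eq_of_ine a_g2 hC hl hO (Act.of_sec hs) (Act.of_sec ht)
      (hI δ hδ0 (hδ v hv V hV) s hs σ hσ) (hI δ hδ0 (hδ v hv V hV) t ht σ hσ)
  exact rigid' hn hC E hE hB hζ (Act.of_sec hs) (Act.of_sec ht) hgen fun σ hσ => hσ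

end num

end Pool.Agent.Helper786_Rig
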