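import Pool.Agent.Helper786_Rig.Rig
import Pool.Agent.R925.X.Cus

/-!
# The section attached to a rational point
-/

set_option autoImplicit false
set_option linter.all false

open Polynomial FF Pool.Agent.Y157.PS Pool.Agent.Y158.GR IsDedekindDomain NumberField

namespace Pool.Agent.Helper786_Rig

section tw

variable {ℓ : ℕ} [hℓ : Fact ℓ.Prime] {κ R M : Type} [Field κ] [IsAlgClosed κ] [CharZero κ]
  [Field R] [Field M] [Algebra κ R] [Algebra R M] [Algebra κ M] [IsScalarTower κ R M] {x : R}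
  {B : Finset κ} {Y : M}

theorem trXM (hC : Cov ℓ κ R M x B Y) : Transcendental κ (algebraMap R M x) :=
  (transcendental_algebraMap_iff (algebraMap R M).injective).2 hC.rat.trans

theorem Y_ne0 (hC : Cov ℓ κ R M x B Y) : Y ≠ 0 := by
  intro h
  have h1 := hC.eqn
  rw [h, zero_pow hℓ.out.ne_zero, eq_comm, Finset.prod_eq_zero_iff] at h1
  obtain ⟨e, -, he⟩ := h1
  apply trXM hC
  rw [sub_eq_zero.1 he]
  exact isAlgebraic_algebraMap _

theorem pos_non {W : Place κ M} {z : M} (h : 0 < W.ord z) : z ∈ W.O.nonunits := by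
  have h0 : z ≠ 0 := by
    rintro rfl
    rw [W.ord_zero] at h
    exact lt_irrefl _ h
  exact (O_non_iff W h0).2 h

theorem const_non {W : Place κ M} {c : κ} (h : algebraMap κ M c ∈ W.O.nonunits) : c = 0 := by
  by_contra hc
  rw [O_non_iff W ((_root_.map_ne_zero _).2 hc), W.ord_const hc] at h
  exact lt_irrefl _ h

/-- two places with the same trace on `κ(x)` are conjugate -/
theorem conj_pl (hC : Cov ℓ κ R M x B Y) {W W' : Place κ M}
    (h : W.O.comap (algebraMap R M) = W'.O.comap (algebraMap R M)) :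
    ∃ γ : M ≃ₐ[R] M, ∀ z, W.ord (γ z) = W'.ord z := by
  haveI := hC.gal
  haveI : Normal R M := hC.gal.to_normal
  obtain ⟨γ, hγ⟩ := a_conj R M W.O W'.O h
  have h1 : Place.comapEquiv W (γ : M ≃+* M) (RingEquiv.refl κ)
      (fun b => Pool.Agent.Y748.PS.gal_const _ b) = W' := by
    apply Place.ext_O
    ext z
    rw [hγ]
    by_cases hz : z = 0
    · rw [hz, map_zero]
      exact ⟨fun _ => zero_mem _, fun _ => zero_mem _⟩
    · rw [O_iff _ hz, O_iff _ ((map_ne_zero_iff γ γ.injective).2 hz)]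
      rfl
  refine ⟨γ, fun z => ?_⟩
  rw [← h1]
  rfl

/-- a conjugating automorphism which fixes `Y` -/
theorem exists_gam (hC : Cov ℓ κ R M x B Y) {W W' : Place κ M}
    (h : W.O.comap (algebraMap R M) = W'.O.comap (algebraMap R M))
    (hval : (∃ c : M ≃ₐ[R] M, Fixes W c ∧ c Y ≠ Y) ∨ ∃ (Z : M) (c : κ), c ≠ 0 ∧
      (∀ (γ : M ≃ₐ[R] M) (ξ : κ), γ Y = algebraMap κ M ξ * Y → γ Z = algebraMap κ M ξ * Z) ∧
      0 < W.ord (Z - algebraMap κ M c) ∧ 0 < W'.ord (Z - algebraMap κ M c)) :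
    ∃ γ : M ≃ₐ[R] M, γ Y = Y ∧ ∀ z, W.ord (γ z) = W'.ord z := by
  obtain ⟨γ, hγ⟩ := conj_pl hC h
  obtain ⟨ξ, hξ, hγY⟩ := hC.actY (Y_ne0 hC) γ
  rcases hval with ⟨c, hcW, hcY⟩ | ⟨Z, c, hc0, hZ, h1, h2⟩
  · obtain ⟨η, hη, hcη⟩ := hC.actY (Y_ne0 hC) c
    have hη1 : η ≠ 1 := by
      rintro rfl
      rw [map_one, one_mul] at hcη
      exact hcY hcη
    have hprim : IsPrimitiveRoot η ℓ := by
      have h3 : orderOf η = ℓ := orderOf_eq_prime hη hη1
      rw [← h3]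
      exact IsPrimitiveRoot.orderOf η
    haveI : NeZero ℓ := ⟨hℓ.out.ne_zero⟩
    obtain ⟨i, -, hi⟩ := hprim.eq_pow_of_pow_eq_one (ξ := ξ⁻¹) (by rw [inv_pow, hξ, inv_one])
    have hcn : ∀ n : ℕ, (c ^ n) Y = algebraMap κ M (η ^ n) * Y := by
      intro n
      induction n with
      | zero => rw [pow_zero, pow_zero, map_one, one_mul]; rfl
      | succ n ih =>
        rw [pow_succ', AlgEquiv.mul_apply, ih, map_mul, Pool.Agent.Y748.PS.gal_const, hcη, pow_succ,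
          map_mul]
        ring
    have hξ0 : ξ ≠ 0 := by
      rintro rfl
      rw [zero_pow hℓ.out.ne_zero] at hξ
      exact zero_ne_one hξ
    refine ⟨c ^ i * γ, ?_, fun z => ?_⟩
    · rw [AlgEquiv.mul_apply, hγY, map_mul, Pool.Agent.Y748.PS.gal_const, hcn, hi, ← mul_assoc,
        ← map_mul, mul_inv_cancel₀ hξ0, map_one, one_mul]
    · rw [AlgEquiv.mul_apply]
      have h4 : Fixes W (c ^ i : M ≃ₐ[R] M) := hcW.pow i
      rw [h4, hγ]
  · refine ⟨γ, ?_, hγ⟩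
    have hγZ := hZ γ ξ hγY
    have h3 : γ (Z - algebraMap κ M c) ∈ W.O.nonunits := pos_non (by rw [hγ]; exact h2)
    have h4 : algebraMap κ M ξ * (Z - algebraMap κ M c) ∈ W.O.nonunits :=
      non_mul (W.reg_const ξ) (pos_non h1)
    have h5 := non_sub h3 h4
    have h6 : γ (Z - algebraMap κ M c) - algebraMap κ M ξ * (Z - algebraMap κ M c) =
        algebraMap κ M ((ξ - 1) * c) := by
      rw [map_sub, hγZ, Pool.Agent.Y748.PS.gal_const, map_mul, map_sub, map_one]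
      ring
    rw [h6] at h5
    have h7 := const_non h5
    rcases mul_eq_zero.1 h7 with h8 | h8
    · rw [hγY, sub_eq_zero.1 h8, map_one, one_mul]
    · exact absurd h8 hc0

/-- automorphisms over `κ(x, Y)` which fix the trace of a place on a level are trivial on the level -/
theorem level_triv (hC : Cov ℓ κ R M x B Y) {N : IntermediateField R M} (hYN : Y ∈ N)
    (W : Place κ M) (γ : M ≃ₐ[R] M) (hγY : γ Y = Y) (h : ∀ z ∈ N, W.ord (γ z) = W.ord z) :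
    ∀ z ∈ N, γ z = z := by
  haveI := hC.gal
  haveI : IsGalois N M := inferInstance
  haveI : Normal N M := IsGalois.to_normal
  let W₁ : Place κ M := Place.comapEquiv W (γ : M ≃+* M) (RingEquiv.refl κ)
      (fun b => Pool.Agent.Y748.PS.gal_const _ b)
  have hW₁ : ∀ z, W₁.ord z = W.ord (γ z) := fun z => rfl
  obtain ⟨η, hη⟩ := a_conj N M W.O W₁.O (by
    ext z
    rw [ValuationSubring.mem_comap, ValuationSubring.mem_comap]
    by_cases hz : algebraMap N M z = 0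
    · rw [hz]
      exact ⟨fun _ => zero_mem _, fun _ => zero_mem _⟩
    · have h0 : W.ord (γ (algebraMap N M z)) = W.ord (algebraMap N M z) := h _ z.2
      rw [O_iff _ hz, O_iff _ hz, hW₁, h0])
  have hη' : ∀ z, W.ord (η z) = W₁.ord z := by
    have h1 : Place.comapEquiv W (η : M ≃+* M) (RingEquiv.refl κ)
        (fun b => Pool.Agent.Y748.PS.gal_const (η.restrictScalars R) b) = W₁ := by
      apply Place.ext_O
      ext z
      rw [hη]
      by_cases hz : z = 0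
      · rw [hz, map_zero]
        exact ⟨fun _ => zero_mem _, fun _ => zero_mem _⟩
      · rw [O_iff _ hz, O_iff _ ((map_ne_zero_iff η η.injective).2 hz)]
        rfl
    intro z
    rw [← h1]
    rfl
  let ηR : M ≃ₐ[R] M := η.restrictScalars R
  have hηi : ∀ z, η (ηR⁻¹ z) = z := fun z => η.apply_symm_apply z
  have hβ : γ * ηR⁻¹ = 1 := by
    by_contra hne
    refine (hC.fixed a_stab W (γ * ηR⁻¹) (fun z => ?_) hne).1 ?_
    · rw [AlgEquiv.mul_apply, ← hW₁, ← hη', hηi]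
    · rw [AlgEquiv.mul_apply]
      have h2 : ηR⁻¹ Y = Y := by
        change η.symm Y = Y
        rw [AlgEquiv.symm_apply_eq]
        exact (η.commutes ⟨Y, hYN⟩).symm
      rw [h2, hγY]
  have hγη : γ = ηR := mul_inv_eq_one.1 hβ
  intro z hz
  rw [hγη]
  exact η.commutes ⟨z, hz⟩

/-- uniqueness -/
theorem gam_unique (hC : Cov ℓ κ R M x B Y) {W : Place κ M} {γ γ' : M ≃ₐ[R] M} (h : γ Y = Y)
    (h' : γ' Y = Y) (hW : ∀ w, W.ord (γ w) = W.ord (γ' w)) : γ = γ' := by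
  have hi : ∀ z, γ (γ⁻¹ z) = z := fun z => γ.apply_symm_apply z
  have h1 : γ' * γ⁻¹ = 1 := by
    by_contra hne
    refine (hC.fixed a_stab W (γ' * γ⁻¹) (fun z => ?_) hne).1 ?_
    · rw [AlgEquiv.mul_apply, ← hW, hi]
    · rw [AlgEquiv.mul_apply]
      have h2 : γ⁻¹ Y = Y := by
        change γ.symm Y = Y
        rw [AlgEquiv.symm_apply_eq, h]
      rw [h2, h']
  exact (mul_inv_eq_one.1 h1).symm

variable {k : Type} [Field k] [Algebra k κ]

/-- **the section attached to a rational point** -/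
theorem exists_tw (hC : Cov ℓ κ R M x B Y) {δ : κ} {s : (κ ≃ₐ[k] κ) →* RingAut M}
    (hs : Sec k κ R M x Y δ s) (W : Place κ M)
    (hW : ∀ σ, ∃ γ : M ≃ₐ[R] M, γ Y = Y ∧ ∀ z, W.ord (γ (s σ z)) = W.ord z) :
    ∃ t : (κ ≃ₐ[k] κ) →* RingAut M, Sec k κ R M x Y δ t ∧ (∀ σ, Fixes W (t σ)) ∧
      ∀ σ, Fixes W (s σ) → t σ = s σ := by
  classical
  haveI := hC.gal
  choose g hgY hg using hW
  have hsinv : ∀ (σ : κ ≃ₐ[k] κ) (z : M), s σ (s σ⁻¹ z) = z := fun σ z =>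
    Pool.Agent.Y748.PS.s_apply_inv s σ z
  have hsinv' : ∀ (σ : κ ≃ₐ[k] κ) (z : M), s σ⁻¹ (s σ z) = z := fun σ z =>
    Pool.Agent.Y748.PS.s_inv_apply s σ z
  have hsmul : ∀ (σ τ : κ ≃ₐ[k] κ) (z : M), s (σ * τ) z = s σ (s τ z) := fun σ τ z => by
    rw [map_mul]; rfl
  have hone : g 1 = 1 := by
    refine gam_unique (W := W) hC (hgY 1) rfl fun w => ?_
    have h1 := hg 1 w
    rw [map_one] at h1
    exact h1
  have hgmul : ∀ (σ τ : κ ≃ₐ[k] κ) (z : M),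
      g (σ * τ) (s (σ * τ) z) = g σ (s σ (g τ (s τ z))) := by
    intro σ τ z
    obtain ⟨η, hη⟩ := conjR hC.rat (s σ⁻¹) ((σ⁻¹ : κ ≃ₐ[k] κ) : κ ≃+* κ)
      (fun b => hs.const σ⁻¹ b) (hs.fixx σ⁻¹) (g τ)
    have hη' : ∀ w, η (s σ w) = s σ (g τ w) := by
      intro w
      rw [hη, RingEquiv.symm_apply_eq, hsinv', hsinv']
    have h1 : g (σ * τ) = g σ * η := by
      refine gam_unique (W := W) hC (hgY _) ?_ fun w => ?_
      · have h2 : η Y = Y := by
          have h3 := hη' (s σ⁻¹ Y)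
          rw [hsinv] at h3
          rw [h3, hs.fixy, map_mul, Pool.Agent.Y748.PS.gal_const, hgY, ← hs.fixy, hsinv]
        rw [AlgEquiv.mul_apply, h2, hgY]
      · obtain ⟨z, rfl⟩ : ∃ z, s (σ * τ) z = w := ⟨s (σ * τ)⁻¹ w, hsinv _ _⟩
        rw [hg, AlgEquiv.mul_apply, hsmul, hη', hg, hg]
    rw [h1, AlgEquiv.mul_apply, hsmul, hη']
  let t : (κ ≃ₐ[k] κ) →* RingAut M :=
    { toFun := fun σ => ((g σ : M ≃+* M) : RingAut M) * s σ
      map_one' := by
        ext z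
        change g 1 (s 1 z) = z
        rw [hone, map_one]
        rfl
      map_mul' := by
        intro σ τ
        ext z
        exact hgmul σ τ z }
  have ht : ∀ σ z, t σ z = g σ (s σ z) := fun σ z => rfl
  refine ⟨t, ⟨fun σ c => ?_, fun σ => ?_, fun σ => ?_, fun z => ?_⟩, fun σ z => ?_, fun σ hσ => ?_⟩
  · rw [ht, hs.const, Pool.Agent.Y748.PS.gal_const]
  · rw [ht, hs.fixx, AlgEquiv.commutes]
  · rw [ht, hs.fixy, map_mul, Pool.Agent.Y748.PS.gal_const, hgY]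
  · -- continuity
    obtain ⟨N₁, hzN₁, hN₁⟩ := hC.pow z
    obtain ⟨N₂, hYN₂, hN₂⟩ := hC.pow Y
    haveI := hN₁.fin
    haveI := hN₂.fin
    obtain ⟨N, hN⟩ : ∃ N : IntermediateField R M, N = N₁ ⊔ N₂ := ⟨_, rfl⟩
    haveI : FiniteDimensional R N := by rw [hN]; infer_instance
    have hzN : z ∈ N := by rw [hN]; exact (le_sup_left : N₁ ≤ N₁ ⊔ N₂) hzN₁
    have hYN : Y ∈ N := by rw [hN]; exact (le_sup_right : N₂ ≤ N₁ ⊔ N₂) hYN₂
    haveI : Finite (N →ₐ[R] M) := inferInstance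
    have hch : ∀ f : N →ₐ[R] M, ∃ w : M, (∃ v : N, W.ord (f v) ≠ W.ord (v : M)) →
        ∃ v : N, (v : M) = w ∧ W.ord (f v) ≠ W.ord (v : M) := by
      intro f
      by_cases h : ∃ v : N, W.ord (f v) ≠ W.ord (v : M)
      · obtain ⟨v, hv⟩ := h
        exact ⟨v, fun _ => ⟨v, rfl, hv⟩⟩
      · exact ⟨0, fun h' => absurd h' h⟩
    choose w hw using hch
    have hE : ∀ f : N →ₐ[R] M, ∃ E : IntermediateField k κ, FiniteDimensional k E ∧
        ∀ σ ∈ E.fixingSubgroup, s σ (w f) = w f := fun f => hs.cont (w f)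
    choose E hEf hE using hE
    obtain ⟨E₀, hE₀f, hE₀⟩ := hs.cont z
    haveI := hEf
    haveI := hE₀f
    refine ⟨E₀ ⊔ ⨆ f, E f, inferInstance, fun σ hσ => ?_⟩
    rw [IntermediateField.mem_fixingSubgroup_iff] at hσ
    have h1 : s σ z = z := hE₀ σ (by
      rw [IntermediateField.mem_fixingSubgroup_iff]
      exact fun y hy => hσ y ((le_sup_left : E₀ ≤ _) hy))
    have h2 : ∀ f, s σ (w f) = w f := fun f => hE f σ (by
      rw [IntermediateField.mem_fixingSubgroup_iff]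
      exact fun y hy => hσ y ((le_sup_right : (⨆ f, E f) ≤ E₀ ⊔ _) ((le_iSup E f) hy)))
    rw [ht, h1]
    refine level_triv hC hYN W (g σ) (hgY σ) (fun v hv => ?_) z hzN
    by_contra hne
    obtain ⟨v', hv', hne'⟩ := hw ((g σ : M →ₐ[R] M).comp N.val) ⟨⟨v, hv⟩, hne⟩
    apply hne'
    change W.ord (g σ (v' : M)) = _
    have h3 := hg σ (v' : M)
    rw [hv', h2, ← hv'] at h3
    exact h3
  · rw [ht]
    exact hg σ z
  · have h1 : g σ = 1 := by
      refine gam_unique (W := W) hC (hgY σ) rfl fun w => ?_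
      obtain ⟨z, rfl⟩ : ∃ z, s σ z = w := ⟨s σ⁻¹ w, hsinv _ _⟩
      rw [hg]
      exact (hσ z).symm
    ext z
    rw [ht, h1]
    rfl

/-- the places above a rational point are conjugate -/
theorem exists_gam_of_val (hC : Cov ℓ κ R M x B Y) {δ : κ} (hδ0 : δ ≠ 0)
    {s : (κ ≃ₐ[k] κ) →* RingAut M} (hs : Sec k κ R M x Y δ s) (W : Place κ M)
    (hx : (∃ a : κ, (∀ σ : κ ≃ₐ[k] κ, σ a = a) ∧
      0 < W.ord (algebraMap R M x - algebraMap κ M a)) ∨ W.ord (algebraMap R M x) < 0)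
    (hval : (∃ c : M ≃ₐ[R] M, Fixes W c ∧ c Y ≠ Y) ∨ ∃ (Z : M) (c : κ), c ≠ 0 ∧
      (∀ (γ : M ≃ₐ[R] M) (ξ : κ), γ Y = algebraMap κ M ξ * Y → γ Z = algebraMap κ M ξ * Z) ∧
      (∀ σ : κ ≃ₐ[k] κ, s σ Z = algebraMap κ M (σ δ / δ) * Z) ∧
      (∀ σ : κ ≃ₐ[k] κ, σ c = σ δ / δ * c) ∧ 0 < W.ord (Z - algebraMap κ M c))
    (σ : κ ≃ₐ[k] κ) : ∃ γ : M ≃ₐ[R] M, γ Y = Y ∧ ∀ z, W.ord (γ (s σ z)) = W.ord z := by
  have hsinv' : ∀ (σ : κ ≃ₐ[k] κ) (z : M), s σ⁻¹ (s σ z) = z := fun σ z =>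
    Pool.Agent.Y748.PS.s_inv_apply s σ z
  let W' : Place κ M := Place.comapEquiv W (s σ⁻¹) ((σ⁻¹ : κ ≃ₐ[k] κ) : κ ≃+* κ)
    (fun b => hs.const σ⁻¹ b)
  have hW' : ∀ z, W'.ord z = W.ord (s σ⁻¹ z) := fun z => rfl
  have htr : W.O.comap (algebraMap R M) = W'.O.comap (algebraMap R M) := by
    rcases hx with ⟨a, ha, h1⟩ | h1
    · refine trace_eq hC.rat a h1 ?_
      rw [hW', map_sub, hs.fixx, hs.const, ha]
      exact h1
    · refine trace_eq (Pool.Agent.R925.X.RatF_inv hC.rat) 0 ?_ ?_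
      · rw [map_zero, sub_zero, map_inv₀, W.ord_inv]
        omega
      · rw [map_zero, sub_zero, map_inv₀, hW', map_inv₀, hs.fixx, W.ord_inv]
        omega
  obtain ⟨γ, hγY, hγ⟩ := exists_gam hC htr (by
    rcases hval with h | ⟨Z, c, hc0, hZ, hsZ, hcσ, h1⟩
    · exact Or.inl h
    · refine Or.inr ⟨Z, c, hc0, hZ, h1, ?_⟩
      rw [hW', map_sub, hsZ, hs.const, hcσ, map_mul, ← mul_sub]
      have h2 : σ⁻¹ δ / δ ≠ 0 :=
        div_ne_zero ((map_ne_zero_iff (σ⁻¹ : κ ≃ₐ[k] κ) (σ⁻¹ : κ ≃ₐ[k] κ).injective).2 hδ0) hδ0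
      have h3 : Z - algebraMap κ M c ≠ 0 := by
        intro h
        rw [h, W.ord_zero] at h1
        exact lt_irrefl _ h1
      rw [W.ord_mul ((_root_.map_ne_zero _).2 h2) h3, W.ord_const h2, zero_add]
      exact h1)
  refine ⟨γ, hγY, fun z => ?_⟩
  rw [hγ, hW', hsinv']

end tw

section num

variable {K κ : Type} [Field K] [NumberField K] [Field κ] [Algebra K κ] [IsAlgClosure K κ] {ℓ : ℕ}
  [hp : Fact ℓ.Prime] {L C : Type} [Field L] [Field C] [Algebra K L] [Algebra L C] [Algebra K C]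
  [IsScalarTower K L C] [CharZero L] [IsAlgClosure L C]
  {R M : Type} [Field R] [Field M] [Algebra κ R] [Algebra R M] [Algebra κ M]
  [IsScalarTower κ R M] {x : R} {B : Finset κ} {Y : M}

/-- **sections which are given by a rational point at one place** -/
theorem fixes_of_loc {ζ : K} (hζ : IsPrimitiveRoot ζ ℓ) {S : Set (HeightOneSpectrum (𝓞 K))}
    (hS : ∀ v, v ∉ S → (ℓ : 𝓞 K) ∉ v.asIdeal) (hL : LocPow ℓ S L) (ι : κ →ₐ[K] C)
    (hC : Cov ℓ κ R M x B Y) (E : IntermediateField K κ) [FiniteDimensional K E] [Normal K E]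
    (hE : IsPGroup ℓ (E ≃ₐ[K] E)) (hB : ∀ e ∈ B, e ∈ E)
    (hgood : ∀ v, v ∉ S → ∀ V : ValuationSubring κ, Above v V → Good V B) {δ : κ} (hδ0 : δ ≠ 0)
    (hδ : ∀ v, v ∉ S → ∀ V : ValuationSubring κ, Above v V →
      ∀ σ : κ ≃ₐ[K] κ, Ine V σ → σ δ = δ)
    {s : (κ ≃ₐ[K] κ) →* RingAut M} (hs : Sec K κ R M x Y δ s) (W : Place κ M)
    (hW : ∀ σ, ∃ γ : M ≃ₐ[R] M, γ Y = Y ∧ ∀ z, W.ord (γ (s σ z)) = W.ord z)
    (hloc : ∀ σ, DecL L ι σ → Fixes W (s σ)) (σ : κ ≃ₐ[K] κ) : Fixes W (s σ) := by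
  haveI : IsAlgClosed κ := IsAlgClosure.isAlgClosed K
  haveI : CharZero κ := charZero_of_injective_algebraMap (algebraMap K κ).injective
  obtain ⟨t, ht, htW, hts⟩ := exists_tw hC hs W hW
  have h1 : s = t := numRig hζ hS hL ι hC E hE hB hgood hδ0 hδ hs ht
    fun σ hσ => (hts σ (hloc σ hσ)).symm
  rw [h1]
  exact htW σ

end num

end Pool.Agent.Helper786_Rig
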